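import Pool.Agent.Y169.TH.Arr

/-!
Covers of projective space which are branched along hypersurfaces without a common point.
-/

set_option autoImplicit false
set_option linter.overlappingInstances false
set_option linter.unusedSectionVars false
set_option maxHeartbeats 400000

open FF MvPolynomial Pool.Agent.W603.LV Pool.Agent.W602.GT Pool.Agent.W602.Cov
open Pool.Agent.TH122.AB Pool.Agent.Y169.CH
open Pool.Agent.Y169.TH (Dat wm lm wm_lm bw_wm bw_sel colS grd map_colS deh aeval_deh deh_ne degB_deh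
  exists_hom lm_log lm_reg sel seld euler)

namespace Pool.Agent.K3h47.NC

section

variable {n : ℕ} {F : Fin (n + 1) → MvPolynomial (Fin (n + 1)) ℂ}

/-- the forms have no common zero -/
def Ncz (F : Fin (n + 1) → MvPolynomial (Fin (n + 1)) ℂ) : Prop :=
  ∀ x : Fin (n + 1) → ℂ, x ≠ 0 → ∃ k, eval x (F k) ≠ 0

theorem null_cert3 (hS : Ncz F) (j : Fin (n + 1)) :
    ∃ (M : ℕ) (A : Fin (n + 1) → MvPolynomial (Fin (n + 1)) ℂ), X j ^ M = ∑ k, A k * F k := by
  classical
  obtain ⟨I, hI⟩ : ∃ I : Ideal (MvPolynomial (Fin (n + 1)) ℂ), I = Ideal.span (Set.range F) :=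
    ⟨_, rfl⟩
  have h1 : (X j : MvPolynomial (Fin (n + 1)) ℂ) ∈ vanishingIdeal ℂ (zeroLocus ℂ I) := by
    rw [mem_vanishingIdeal_iff]
    intro x hx
    have hx0 : x = 0 := by
      by_contra hne
      obtain ⟨k, hk⟩ := hS x hne
      apply hk
      rw [mem_zeroLocus_iff] at hx
      exact hx (F k) (by rw [hI]; exact Ideal.subset_span ⟨k, rfl⟩)
    rw [hx0, aeval_X]
    rfl
  rw [vanishingIdeal_zeroLocus_eq_radical] at h1
  obtain ⟨M, hM⟩ := h1
  rw [hI, Ideal.mem_span_range_iff_exists_fun] at hM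
  obtain ⟨A, hA⟩ := hM
  exact ⟨M, A, hA.symm⟩

/-- one of the forms does not vanish -/
theorem exists_unit_form3 {K : Type} [Field K] [Algebra ℂ K] (P : Place ℂ K) (hS : Ncz F)
    {y : Fin (n + 1) → K}
    (hy : ∀ l, P.Reg (y l)) {j : Fin (n + 1)} (hj : y j = 1) :
    ∃ k, aeval y (F k) ≠ 0 ∧ P.ord (aeval y (F k)) = 0 := by
  classical
  by_contra hcon
  push Not at hcon
  have h1 : ∀ k, Ge P 1 (aeval y (F k)) := by
    intro k
    by_cases h0 : aeval y (F k) = 0
    · exact Or.inl h0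
    · right
      have h2 := hcon k h0
      have h3 := (reg_aeval hy (F k)).resolve_left h0
      omega
  obtain ⟨M, A, hA⟩ := null_cert3 hS j
  have h4 : Ge P 1 (1 : K) := by
    have h5 := congrArg (aeval y) hA
    rw [map_pow, aeval_X, hj, one_pow, map_sum] at h5
    rw [h5]
    refine Ge.sum _ _ fun k _ => ?_
    rw [map_mul]
    have h6 := (show Ge P 0 (aeval y (A k)) from reg_aeval hy (A k)).mul (h1 k)
    simpa using h6
  rcases h4 with h4 | h4
  · exact one_ne_zero h4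
  · rw [P.ord_one] at h4
    omega

end

/-- forms without common zeros; the hyperplane `x 0 = 0` is not one of their components -/
structure Arr (n : ℕ) where
  /-- the forms -/
  F : Fin (n + 1) → MvPolynomial (Fin (n + 1)) ℂ
  /-- their degrees -/
  dF : Fin (n + 1) → ℕ
  hd : ∀ k, 0 < dF k
  hh : ∀ k, (F k).IsHomogeneous (dF k)
  hN : Ncz F
  hI : ∀ k, ∃ a ∈ (F k).support, a 0 = 0

namespace Arr

variable {n : ℕ} (Φ : Arr n)

/-- the complementary degrees -/
noncomputable def ee (k : Fin (n + 1)) : ℕ := ∏ i ∈ Finset.univ.erase k, Φ.dF i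

/-- the common degree -/
noncomputable def E : ℕ := ∏ i, Φ.dF i

theorem d_ee (k : Fin (n + 1)) : Φ.dF k * Φ.ee k = Φ.E :=
  Finset.mul_prod_erase _ _ (Finset.mem_univ k)

theorem E_pos : 0 < Φ.E := Finset.prod_pos fun k _ => Φ.hd k

theorem ee_pos (k : Fin (n + 1)) : 0 < Φ.ee k := Finset.prod_pos fun k _ => Φ.hd k

/-- the forms of the common degree -/
noncomputable def G (k : Fin (n + 1)) : MvPolynomial (Fin (n + 1)) ℂ := Φ.F k ^ Φ.ee k

theorem G_hom (k : Fin (n + 1)) : (Φ.G k).IsHomogeneous Φ.E := by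
  have h := (Φ.hh k).pow (Φ.ee k)
  rwa [Φ.d_ee] at h

theorem F_ne (k : Fin (n + 1)) : Φ.F k ≠ 0 := by
  obtain ⟨a, ha, -⟩ := Φ.hI k
  exact support_nonempty.1 ⟨a, ha⟩

theorem G_ne (k : Fin (n + 1)) : Φ.G k ≠ 0 := pow_ne_zero _ (Φ.F_ne k)

end Arr

/-- the field `K` is generated by the affine coordinates and by roots of products of the forms -/
structure Cv {n : ℕ} (Φ : Arr n) (K : Type) [Field K] [Algebra ℂ K] (R : ℕ) where
  /-- the coordinates -/
  x : Fin (n + 1) → K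
  hx0 : x 0 = 1
  hbas : IsTranscendenceBasis ℂ fun b : Fin n => x b.succ
  /-- the roots -/
  z : Fin R → K
  /-- their exponents -/
  M : Fin R → ℕ
  hM : ∀ j, 0 < M j
  /-- the exponents of the forms -/
  a : Fin R → Fin (n + 1) → ℕ
  hz : ∀ j, z j ^ M j = ∏ k, aeval x (Φ.F k) ^ a j k
  hdiv : ∀ j, M j ∣ ∑ k, a j k * Φ.dF k
  hgen : IntermediateField.adjoin ℂ (Set.range (fun b : Fin n => x b.succ) ∪ Set.range z) = ⊤

namespace Cv

variable {n : ℕ} {Φ : Arr n} {K : Type} [Field K] [Algebra ℂ K] {R : ℕ} (C : Cv Φ K R)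

/-- the affine coordinates -/
def u (b : Fin n) : K := C.x b.succ

theorem u_bas : IsTranscendenceBasis ℂ C.u := C.hbas

theorem ae_deh (P : MvPolynomial (Fin (n + 1)) ℂ) : aeval C.u (deh P) = aeval C.x P :=
  aeval_deh C.hx0 P

theorem ae_ne {P : MvPolynomial (Fin n) ℂ} (hP : P ≠ 0) : aeval C.u P ≠ 0 := by
  intro h
  exact hP ((injective_iff_map_eq_zero _).1 C.hbas.1 P h)

theorem hom_ne {P : MvPolynomial (Fin (n + 1)) ℂ} {D : ℕ} (hh : P.IsHomogeneous D) (hP : P ≠ 0) :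
    aeval C.x P ≠ 0 := by
  rw [← C.ae_deh]
  exact C.ae_ne (deh_ne hh hP)

theorem F_ne (k : Fin (n + 1)) : aeval C.x (Φ.F k) ≠ 0 := C.hom_ne (Φ.hh k) (Φ.F_ne k)

theorem G_ne (k : Fin (n + 1)) : aeval C.x (Φ.G k) ≠ 0 := C.hom_ne (Φ.G_hom k) (Φ.G_ne k)

theorem ae_G (y : Fin (n + 1) → K) (k : Fin (n + 1)) :
    aeval y (Φ.G k) = aeval y (Φ.F k) ^ Φ.ee k := by
  unfold Arr.G
  rw [map_pow]

theorem x_ne (l : Fin (n + 1)) : C.x l ≠ 0 := by
  have h := C.hom_ne (isHomogeneous_X ℂ l) (X_ne_zero l)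
  rwa [aeval_X] at h

theorem z_ne (j : Fin R) : C.z j ≠ 0 := by
  intro h
  have h1 := C.hz j
  rw [h, zero_pow (C.hM j).ne'] at h1
  exact (Finset.prod_ne_zero_iff.2 fun t _ => pow_ne_zero _ (C.F_ne t)) h1.symm

/-- the toric coordinates -/
noncomputable def Y (b : Fin n) : K := aeval C.x (Φ.G b.succ) / aeval C.x (Φ.G 0)

theorem Y_ne (b : Fin n) : C.Y b ≠ 0 := div_ne_zero (C.G_ne _) (C.G_ne _)

/-- forms are bounded by the forms `G` -/
theorem val_hom (V : ValuationSubring K) (hV : ∀ b, C.Y b ∈ V) {H : MvPolynomial (Fin (n + 1)) ℂ}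
    {q : ℕ} (hH : H.IsHomogeneous (Φ.E * q)) (hc : ∀ c : ℂ, algebraMap ℂ K c ∈ V) :
    aeval C.x H / aeval C.x (Φ.G 0) ^ q ∈ V := by
  classical
  obtain ⟨l, hl⟩ := Finite.exists_max fun l => V.valuation (C.x l)
  have hle := fun b => (V.valuation_le_one_iff b)
  obtain ⟨y, hy⟩ : ∃ y : Fin (n + 1) → K, y = fun b => C.x b / C.x l := ⟨_, rfl⟩
  have hvl : V.valuation (C.x l) ≠ 0 := by
    rw [Ne, map_eq_zero]
    exact C.x_ne l
  have hyV : ∀ b, y b ∈ V := by
    intro b
    rw [← hle, hy]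
    dsimp only
    rw [map_div₀]
    exact div_le_one_of_le₀ (hl b) zero_le
  have hyl : y l = 1 := by
    rw [hy]
    exact div_self (C.x_ne l)
  have hae : ∀ P : MvPolynomial (Fin (n + 1)) ℂ, aeval y P ∈ V := by
    intro P
    rw [aeval_def, eval₂_eq']
    refine V.toSubring.sum_mem fun m _ => V.toSubring.mul_mem (hc _)
      (V.toSubring.prod_mem fun i _ => V.toSubring.pow_mem (hyV i) _)
  have hscale : ∀ (D : ℕ) (P : MvPolynomial (Fin (n + 1)) ℂ), P.IsHomogeneous D →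
      aeval C.x P = C.x l ^ D * aeval y P := by
    intro D P hP
    rw [← aeval_smul_form hP]
    congr 2
    funext b
    rw [hy]
    dsimp only
    rw [mul_div_cancel₀ _ (C.x_ne l)]
  -- one of the forms is a unit
  obtain ⟨k, hk⟩ : ∃ k, V.valuation (aeval y (Φ.F k)) = 1 := by
    by_contra hcon
    push Not at hcon
    have h1 : ∀ k, V.valuation (aeval y (Φ.F k)) < 1 := fun k =>
      lt_of_le_of_ne ((hle _).2 (hae _)) (hcon k)
    obtain ⟨M, A, hA⟩ := null_cert3 Φ.hN l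
    have h2 := congrArg (aeval y) hA
    rw [map_pow, aeval_X, hyl, one_pow, map_sum] at h2
    have h3 : V.valuation (∑ k, aeval y (A k * Φ.F k)) < 1 := by
      refine V.valuation.map_sum_lt one_ne_zero fun k _ => ?_
      rw [map_mul, map_mul]
      exact lt_of_le_of_lt (mul_le_of_le_one_left' ((hle _).2 (hae _))) (h1 k)
    rw [← h2, map_one] at h3
    exact lt_irrefl _ h3
  have hG : ∀ i, aeval C.x (Φ.G i) / aeval C.x (Φ.G 0) = aeval y (Φ.G i) / aeval y (Φ.G 0) := by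
    intro i
    rw [hscale _ _ (Φ.G_hom i), hscale _ _ (Φ.G_hom 0),
      mul_div_mul_left _ _ (pow_ne_zero _ (C.x_ne l))]
  have hG0 : aeval y (Φ.G 0) ≠ 0 := by
    intro h0
    apply C.G_ne 0
    rw [hscale _ _ (Φ.G_hom 0), h0, mul_zero]
  have hunit : V.valuation (aeval y (Φ.G 0)) = 1 := by
    apply le_antisymm ((hle _).2 (hae _))
    have h1 : V.valuation (aeval y (Φ.G k) / aeval y (Φ.G 0)) ≤ 1 := by
      rw [hle, ← hG]
      refine Fin.cases ?_ (fun b => ?_) k
      · rw [div_self (C.G_ne 0)]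
        exact V.one_mem
      · exact hV b
    have h2 : V.valuation (aeval y (Φ.G k)) = 1 := by
      rw [ae_G, map_pow, hk, one_pow]
    rw [map_div₀, h2] at h1
    have h3 : V.valuation (aeval y (Φ.G 0)) ≠ 0 := by
      rw [Ne, map_eq_zero]
      exact hG0
    rwa [div_le_one₀ (zero_lt_iff.2 h3)] at h1
  have h1 : aeval C.x H / aeval C.x (Φ.G 0) ^ q = aeval y H / aeval y (Φ.G 0) ^ q := by
    rw [hscale _ _ hH, hscale _ _ (Φ.G_hom 0), mul_pow, ← pow_mul,
      mul_div_mul_left _ _ (pow_ne_zero _ (C.x_ne l))]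
  rw [h1, ← hle, map_div₀, map_pow, hunit, one_pow, div_one]
  exact (hle _).2 (hae _)

theorem int_of_val {A : Subalgebra ℂ K} {z : K}
    (h : ∀ V : ValuationSubring K, (∀ a ∈ A, a ∈ V) → z ∈ V) : IsIntegral A z := by
  have h1 : z ∈ (integralClosure (Subring.closure (A : Set K)) K).toSubring := by
    rw [← iInf_valuationSubring_superset, Subring.mem_iInf]
    intro V
    exact h V.1 fun a ha => V.2 ha
  have hle : Subring.closure (A : Set K) ≤ A.toSubring := Subring.closure_le.2 fun a ha => ha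
  obtain ⟨p, hp, hp0⟩ := h1
  refine ⟨p.map (Subring.inclusion hle), hp.map _, ?_⟩
  rw [Polynomial.eval₂_map]
  exact hp0

/-- **Integrality.** -/
theorem int_hom {H : MvPolynomial (Fin (n + 1)) ℂ} {q : ℕ} (hH : H.IsHomogeneous (Φ.E * q)) :
    IsIntegral (Algebra.adjoin ℂ (Set.range C.Y)) (aeval C.x H / aeval C.x (Φ.G 0) ^ q) :=
  int_of_val fun V hV => C.val_hom V (fun b => hV _ (Algebra.subset_adjoin ⟨b, rfl⟩)) hH
    fun c => hV _ (Subalgebra.algebraMap_mem _ c)

theorem int_u {P : MvPolynomial (Fin n) ℂ} {q : ℕ} (hP : ∀ m ∈ P.support, ∑ b, m b ≤ Φ.E * q) :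
    IsIntegral (Algebra.adjoin ℂ (Set.range C.Y)) (aeval C.u P / aeval C.x (Φ.G 0) ^ q) := by
  obtain ⟨H, hH, rfl⟩ := exists_hom hP
  rw [C.ae_deh]
  exact C.int_hom hH

theorem fin_Y : FiniteDimensional (IntermediateField.adjoin ℂ (Set.range C.Y)) K := by
  classical
  obtain ⟨L, hL⟩ : ∃ L, L = IntermediateField.adjoin ℂ (Set.range C.Y) := ⟨_, rfl⟩
  rw [← hL]
  have hAE : Algebra.adjoin ℂ (Set.range C.Y) ≤ L.toSubalgebra := by
    rw [hL]
    exact IntermediateField.algebra_adjoin_le_adjoin ℂ _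
  have hint : ∀ z : K, IsIntegral (Algebra.adjoin ℂ (Set.range C.Y)) z → IsIntegral L z := by
    rintro z ⟨p, hp, hp0⟩
    refine ⟨p.map (Subalgebra.inclusion hAE).toRingHom, hp.map _, ?_⟩
    rw [Polynomial.eval₂_map]
    exact hp0
  have hx : ∀ l, IsIntegral L (C.x l) := by
    intro l
    have h1 : ∀ l, IsIntegral L (C.x l ^ Φ.E / aeval C.x (Φ.G 0)) := by
      intro l
      have h2 := hint _ (C.int_hom (H := X l ^ Φ.E) (q := 1) (by
        simpa using (isHomogeneous_X ℂ l).pow Φ.E))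
      rwa [map_pow, aeval_X, pow_one] at h2
    have h2 := h1 0
    rw [C.hx0, one_pow] at h2
    have h3 : IsIntegral L (C.x l ^ Φ.E) := by
      have h4 : C.x l ^ Φ.E = C.x l ^ Φ.E / aeval C.x (Φ.G 0) * (1 / aeval C.x (Φ.G 0))⁻¹ := by
        rw [one_div, inv_inv, div_mul_cancel₀ _ (C.G_ne 0)]
      rw [h4]
      exact (h1 l).mul h2.inv
    exact IsIntegral.of_pow Φ.E_pos h3
  have hae : ∀ P : MvPolynomial (Fin (n + 1)) ℂ, IsIntegral L (aeval C.x P) := by
    intro P
    rw [aeval_def, eval₂_eq']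
    refine IsIntegral.sum _ fun m _ => IsIntegral.mul ?_ (IsIntegral.prod _ fun i _ => (hx i).pow _)
    exact isIntegral_algebraMap (R := L) (x := algebraMap ℂ L _)
  refine (fin_of_gen L (S := Set.range (fun b : Fin n => C.x b.succ) ∪ Set.range C.z)
    ((Set.finite_range _).union (Set.finite_range _)) (fun L _ hSL => ?_) (fun x hx' => ?_)).1
  · rw [eq_top_iff, ← C.hgen, IntermediateField.adjoin_le_iff]
    exact hSL
  · rcases hx' with ⟨b, rfl⟩ | ⟨j, rfl⟩
    · exact hx _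
    · refine IsIntegral.of_pow (C.hM j) ?_
      rw [C.hz]
      exact IsIntegral.prod _ fun k _ => (hae _).pow _

theorem bas_Y : IsTranscendenceBasis ℂ C.Y := by
  classical
  have hfd := C.fin_Y
  have h1 : Algebra.IsAlgebraic (IntermediateField.adjoin ℂ (Set.range C.Y)) K :=
    Algebra.IsAlgebraic.of_finite _ _
  have h2 : Algebra.IsAlgebraic (Algebra.adjoin ℂ (Set.range C.Y)) K := by
    open scoped IntermediateField.algebraAdjoinAdjoin in
    exact IsFractionRing.comap_isAlgebraic_iff.2 h1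
  have htr := Pool.Agent.W602.GT.trdeg_of_basis C.hbas
  exact Algebra.IsAlgebraic.isTranscendenceBasis_of_le_trdeg_of_finite ℂ C.Y (by rw [htr]; simp)

theorem adj_le : IntermediateField.adjoin ℂ (Set.range C.Y) ≤
    IntermediateField.adjoin ℂ (Set.range C.u) := by
  rw [IntermediateField.adjoin_le_iff]
  rintro _ ⟨b, rfl⟩
  have h1 : ∀ P : MvPolynomial (Fin (n + 1)) ℂ, aeval C.x P ∈
      IntermediateField.adjoin ℂ (Set.range C.u) := by
    intro P
    rw [← C.ae_deh]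
    have h1 : aeval C.u (deh P) ∈ Algebra.adjoin ℂ (Set.range C.u) := by
      rw [Algebra.adjoin_range_eq_range_aeval]
      exact ⟨_, rfl⟩
    exact IntermediateField.algebra_adjoin_le_adjoin ℂ _ h1
  exact div_mem (h1 _) (h1 _)

include C in
theorem fin_all' (y : Fin n → K) (hy : IsTranscendenceBasis ℂ y) :
    FiniteDimensional (IntermediateField.adjoin ℂ (Set.range y)) K :=
  Pool.Agent.TH756.PN.fin_all C.fin_Y hy

end Cv

end Pool.Agent.K3h47.NC
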