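import Pool.Agent.K3h47.NC.Com

/-!
Pairs which are commensurable with the projective space and a log canonical configuration.
-/

set_option autoImplicit false
set_option linter.overlappingInstances false
set_option linter.unusedSectionVars false
set_option maxHeartbeats 400000

open FF MvPolynomial Pool.Agent.W602.GT Pool.Agent.W619.PQ Pool.Agent.W619.TW
  Pool.Agent.Y172 Pool.Agent.Y191 Pool.Agent.Y174

namespace Pool.Agent.K3h47.NC

/-- the polyhedron -/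
def PiC {N : ℕ} (dF : Fin N → ℕ) (A : (Fin N → ℕ) → ℚ) : Set (Fin N → ℚ) :=
  {y | ∑ k, (dF k : ℚ) * y k = ∑ k, ((dF k : ℚ) - 1) ∧
    ∀ v : Fin N → ℕ, v ≠ 0 → (∃ k, v k = 0) → A v ≤ ∑ k, (v k : ℚ) * y k}

theorem piC_eq {N : ℕ} (dF : Fin N → ℕ) (A : (Fin N → ℕ) → ℚ) (M : Fin 0 → ℕ)
    (a : Fin 0 → Fin N → ℕ) : PiC dF A = PiB M a dF A := by
  unfold PiC PiB
  rw [Finset.sum_sub_distrib]
  simp only [Finset.sum_const, Finset.card_univ, Fintype.card_fin, nsmul_eq_mul, mul_one]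
  ext y
  refine and_congr Iff.rfl ⟨fun h v hv => h v hv.1 hv.2.1, fun h v h1 h2 =>
    h v ⟨h1, h2, fun j => j.elim0⟩⟩

theorem rf_ess (n : ℕ) : Algebra.EssFiniteType ℂ (Rf n) :=
  Pool.Agent.R885.N.ess_of_gen (x := fun b : Fin n => gp n b.succ) (gp_top n)

/-- the pairs on the projective space -/
theorem config (n : ℕ) (hn : 1 ≤ n) (d : Fin (n + 1) → ℕ) (hd : ∀ k, 1 ≤ d k)
    (F : Fin (n + 1) → MvPolynomial (Fin (n + 1)) ℂ) (hF : ∀ k, (F k).IsHomogeneous (d k))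
    (hF0 : ∀ k, F k ≠ 0) (hF1 : Ncz F)
    (hlc : ∀ P : Place ℂ (Rf n), Divisorial n P →
      ∀ D : Fin n → Derivation ℂ (Rf n) (Rf n), (∀ c, DerLog P (D c)) →
      Om (gp n) D = 0 ∨ 0 ≤ lo F d (gp n) P D)
    (A : (Fin (n + 1) → ℕ) → ℚ) (hA : ∀ v, 0 ≤ A v) (hA0 : A 0 = 1) (hfin : (Set.range A).Finite)
    (hsub : ∀ v : Fin (n + 1) → ℕ, v ≠ 0 → (∃ k, v k = 0) → ∀ t : ℕ, 1 ≤ t →
      A (t • v) ≤ t * A v)
    (b : Place ℂ (Rf n) → ℚ) (hb : Bd F d (gp n) A b) :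
    (BPsef n (Rf n) (fun P => ((b P : ℚ) : ℝ)) ↔ (PiC d A).Nonempty) ∧
    ((PiC d A).Nonempty →
      BKod n (Rf n) (fun P => ((b P : ℚ) : ℝ)) (Module.finrank ℚ (vectorSpan ℚ (PiC d A))) ∧
      BNum n (Rf n) (fun P => ((b P : ℚ) : ℝ)) (Module.finrank ℚ (vectorSpan ℚ (PiC d A)))) := by
  have h0 : ∀ b : Fin n, gp n b.succ / gp n 0 = gp n b.succ := fun b => by
    rw [gp_zero, div_one]
  have h1 := final n 0 hn d hd F hF hF0 hF1 hlc (fun j => j.elim0) (fun j => j.elim0)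
    (fun j => j.elim0) (fun j => j.elim0) (Rf n) (gp n) (gp_ne 0)
    (by
      simp only [h0]
      exact gp_bas n) (fun j => j.elim0) (fun j => j.elim0)
    (by
      simp only [h0]
      rw [eq_top_iff, ← gp_top n]
      exact IntermediateField.adjoin.mono _ _ _ Set.subset_union_left) A hA hA0 hfin
    (fun v hv => hsub v hv.1 hv.2.1) b hb
  rw [qpsef_iff, qkod_iff, qkod_iff, qnum_iff, ← piC_eq] at h1
  exact ⟨h1.1, h1.2.2⟩

section

variable {n : ℕ} {K M : Type} [Field K] [Field M] [Algebra ℂ K] [Algebra ℂ M] [Algebra K M]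
  [Algebra (Rf n) M] [IsScalarTower ℂ K M] [IsScalarTower ℂ (Rf n) M] [FiniteDimensional K M]
  [FiniteDimensional (Rf n) M]

/-- **The theorem.** -/
theorem config_com (hn : 1 ≤ n) (d : Fin (n + 1) → ℕ) (hd : ∀ k, 1 ≤ d k)
    (F : Fin (n + 1) → MvPolynomial (Fin (n + 1)) ℂ) (hF : ∀ k, (F k).IsHomogeneous (d k))
    (hF0 : ∀ k, F k ≠ 0) (hF1 : Ncz F)
    (hlc : ∀ P : Place ℂ (Rf n), Divisorial n P →
      ∀ D : Fin n → Derivation ℂ (Rf n) (Rf n), (∀ c, DerLog P (D c)) →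
      Om (gp n) D = 0 ∨ 0 ≤ lo F d (gp n) P D)
    (A : (Fin (n + 1) → ℕ) → ℚ) (hA : ∀ v, 0 ≤ A v) (hA0 : A 0 = 1) (hfin : (Set.range A).Finite)
    (hsub : ∀ v : Fin (n + 1) → ℕ, v ≠ 0 → (∃ k, v k = 0) → ∀ t : ℕ, 1 ≤ t →
      A (t • v) ≤ t * A v)
    (b : Place ℂ (Rf n) → ℚ) (hb : Bd F d (gp n) A b)
    {N : ℕ} {y : Fin (N + 1) → K} {Δ : Place ℂ K → ℚ}
    (hy : Pool.Agent.R885.N.IsCommensurable M b y n Δ) :
    ((PiC d A).Nonempty →
      kodairaDim y n Δ = ((Module.finrank ℚ (vectorSpan ℚ (PiC d A)) : ℕ) : WithBot ℕ) ∧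
      ∀ B, Effective y B → Integral y B →
        numericalDim y n Δ B = ((Module.finrank ℚ (vectorSpan ℚ (PiC d A)) : ℕ) : EReal)) ∧
    (PiC d A = ∅ → kodairaDim y n Δ = ⊥ ∧ ∀ B, Effective y B →
      (∃ M0 : ℕ, ∀ m : ℕ, M0 ≤ m → h0 y n m (m • Δ + B) = 0) ∧ numericalDim y n Δ B = ⊥) := by
  obtain ⟨h1, h2⟩ := config n hn d hd F hF hF0 hF1 hlc A hA hA0 hfin hsub b hb
  obtain ⟨h3, h4⟩ := com_final (gp_tr n) (rf_ess n) hy
  refine ⟨fun hne => h3 _ (h2 hne).1 (h2 hne).2, fun hemp => h4 fun hps => ?_⟩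
  have h5 := h1.1 hps
  rw [hemp] at h5
  exact Set.not_nonempty_empty h5

end

end Pool.Agent.K3h47.NC
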