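import Pool.Agent.K3h47.NC.Up
import Pool.Agent.K3h47.NC.LP
import Pool.Agent.Y169.CH.Cnt

/-!
The numerical dimension and the pseudo-effectivity in terms of a polyhedron.
-/

set_option autoImplicit false
set_option linter.overlappingInstances false
set_option linter.unusedSectionVars false
set_option maxHeartbeats 400000

open FF MvPolynomial IntermediateField Pool.Agent.W603.LV Pool.Agent.W619.PQ
open Pool.Agent.W619.TW Pool.Agent.W602.GT Pool.Agent.TH122.AB Pool.Agent.TH756.PN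
open Pool.Agent.Y169.CH
open Pool.Agent.Y169.TH (Dat dotL dotL_apply exists_coords count)

namespace Pool.Agent.K3h47.NC

/-- the polyhedron -/
def PiB {N R : ℕ} (M : Fin R → ℕ) (a : Fin R → Fin N → ℕ) (dF : Fin N → ℕ)
    (A : (Fin N → ℕ) → ℚ) : Set (Fin N → ℚ) :=
  {y | ∑ k, (dF k : ℚ) * y k = ∑ k, (dF k : ℚ) - N ∧
    ∀ v, Adm M a v → A v ≤ ∑ k, (v k : ℚ) * y k}

section

variable {N R : ℕ} {M : Fin R → ℕ} {a : Fin R → Fin N → ℕ} {dF : Fin N → ℕ}
  {A : (Fin N → ℕ) → ℚ}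

/-- the period -/
def per (M : Fin R → ℕ) : ℕ := ∏ j, M j

theorem per_pos (hM : ∀ j, 0 < M j) : 0 < per M := Finset.prod_pos fun j _ => hM j

theorem dvd_per (M : Fin R → ℕ) (j : Fin R) : M j ∣ per M :=
  Finset.dvd_prod_of_mem _ (Finset.mem_univ j)

/-- the multiples of the unit vectors -/
theorem adm_unit (hM : ∀ j, 0 < M j) (hN : 2 ≤ N) (k : Fin N) :
    Adm M a fun i => if i = k then per M else 0 := by
  classical
  have hL := per_pos hM
  refine ⟨?_, ?_, fun j => ?_⟩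
  · intro h0
    have h2 := congrFun h0 k
    rw [Pi.zero_apply] at h2
    simp only [if_true] at h2
    omega
  · haveI : Nontrivial (Fin N) := Fin.nontrivial_iff_two_le.2 hN
    obtain ⟨i, hi⟩ := exists_ne k
    exact ⟨i, if_neg hi⟩
  · refine Finset.dvd_sum fun i _ => ?_
    dsimp only
    split_ifs
    · exact dvd_mul_of_dvd_right (dvd_per M j) _
    · rw [mul_zero]
      exact dvd_zero _

/-- the indices: the minimal vectors and the multiples of the unit vectors -/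
def Idx (M : Fin R → ℕ) (a : Fin R → Fin N → ℕ) (A : (Fin N → ℕ) → ℚ) : Set (Fin N → ℕ) :=
  {v | Adm M a v ∧ ∀ w, Adm M a w → A w = A v → w ≤ v → w = v} ∪
    Set.range fun k : Fin N => fun i => if i = k then per M else 0

theorem idx_adm (hM : ∀ j, 0 < M j) (hN : 2 ≤ N) {v : Fin N → ℕ} (hv : v ∈ Idx M a A) :
    Adm M a v := by
  rcases hv with hv | ⟨k, rfl⟩
  · exact hv.1
  · exact adm_unit hM hN k

theorem idx_finite (hA : (Set.range A).Finite) : (Idx M a A).Finite := by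
  classical
  refine Set.Finite.union ?_ (Set.finite_range _)
  have h1 : {v | Adm M a v ∧ ∀ w, Adm M a w → A w = A v → w ≤ v → w = v} ⊆
      ⋃ c ∈ Set.range A, {v | A v = c ∧ Adm M a v ∧ ∀ w, Adm M a w → A w = A v → w ≤ v → w = v} := by
    intro v hv
    rw [Set.mem_iUnion₂]
    exact ⟨A v, ⟨v, rfl⟩, rfl, hv⟩
  refine Set.Finite.subset (Set.Finite.biUnion hA fun c _ => ?_) h1
  have h2 : IsAntichain (· ≤ ·)
      {v | A v = c ∧ Adm M a v ∧ ∀ w, Adm M a w → A w = A v → w ≤ v → w = v} := by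
    rintro v ⟨hv1, hv2, hv3⟩ w ⟨hw1, hw2, hw3⟩ hne hle
    exact hne (hw3 v hv2 (by rw [hv1, hw1]) hle)
  have h3 : ({v | A v = c ∧ Adm M a v ∧ ∀ w, Adm M a w → A w = A v → w ≤ v → w = v} :
      Set (Fin N → ℕ)).IsPWO :=
    Set.isPWO_of_wellQuasiOrderedLE _
  exact h2.finite_of_partiallyWellOrderedOn h3

theorem exists_idx {v : Fin N → ℕ} (hv : Adm M a v) :
    ∃ w ∈ Idx M a A, A w = A v ∧ w ≤ v := by
  classical
  obtain ⟨w, hw, hmin⟩ := exists_minimal_le_of_wellFoundedLT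
    (fun w : Fin N → ℕ => Adm M a w ∧ A w = A v) v ⟨hv, rfl⟩
  refine ⟨w, Or.inl ⟨hmin.prop.1, fun u hu hAu hle => ?_⟩, hmin.prop.2, hw⟩
  exact le_antisymm hle (hmin.le_of_le ⟨hu, hAu.trans hmin.prop.2⟩ hle)

/-- the index type -/
abbrev Red (M : Fin R → ℕ) (a : Fin R → Fin N → ℕ) (A : (Fin N → ℕ) → ℚ) : Type := Idx M a A

/-- the vector -/
def rv (s : Red M a A) (k : Fin N) : ℕ := s.1 k

/-- the rational vector -/
def rq (s : Red M a A) (k : Fin N) : ℚ := (s.1 k : ℚ)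

theorem nonneg_of_red (_ : ∀ j, 0 < M j) {y : Fin N → ℚ} {c : ℚ}
    (h : ∀ s : Red M a A, c ≤ dotL (rq s) y) (k : Fin N) : c ≤ per M * y k := by
  classical
  have h1 := h ⟨_, Or.inr ⟨k, rfl⟩⟩
  rw [dotL_apply, Finset.sum_eq_single k] at h1
  · unfold rq at h1
    simpa using h1
  · intro i _ hi
    unfold rq
    simp [hi]
  · intro hk
    exact absurd (Finset.mem_univ _) hk

/-- the polyhedron is given by finitely many inequalities -/
theorem PiB_eq (hM : ∀ j, 0 < M j) (hN : 2 ≤ N) (hA0 : ∀ v, 0 ≤ A v) :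
    PiB M a dF A = Pol (fun k => (dF k : ℚ)) (∑ k, (dF k : ℚ) - N) (fun s : Red M a A => rq s)
      fun s => A s.1 := by
  have hL := per_pos hM
  ext y
  constructor
  · rintro ⟨h1, h2⟩
    exact ⟨h1, fun s => h2 _ (idx_adm hM hN s.2)⟩
  · rintro ⟨h1, h2⟩
    refine ⟨h1, fun v hv => ?_⟩
    obtain ⟨w, hw, hAw, hle⟩ := exists_idx (A := A) hv
    have h3 : ∀ k, 0 ≤ y k := by
      intro k
      have h4 := nonneg_of_red (M := M) (a := a) (A := A) hM (y := y) (c := 0)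
        (fun s => (hA0 _).trans (h2 s)) k
      have h5 : (0 : ℚ) < per M := by exact_mod_cast hL
      by_contra hneg
      push Not at hneg
      nlinarith
    rw [← hAw]
    refine (h2 ⟨w, hw⟩).trans ?_
    rw [dotL_apply]
    refine Finset.sum_le_sum fun k _ => mul_le_mul_of_nonneg_right ?_ (h3 k)
    change ((w k : ℕ) : ℚ) ≤ ((v k : ℕ) : ℚ)
    exact_mod_cast hle k

end

namespace Cv

variable {d : ℕ} {Φ : Arr (d + 1)} {K : Type} [Field K] [Algebra ℂ K] {R : ℕ} (C : Cv Φ K R)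

/-- directions from multiplicities -/
theorem exists_dir {v : Fin (d + 2) → ℕ} (hadm : Adm C.M C.a v) : ∃ T : C.Dir, T.v = v := by
  classical
  obtain ⟨hv, ⟨k0, hk0⟩, hT⟩ := hadm
  obtain ⟨w, hw⟩ : ∃ w : Fin (d + 2) → ℕ, w = fun k => Φ.ee k * v k := ⟨_, rfl⟩
  let φ : (Fin (d + 2) → ℤ) →+ ℤ :=
    { toFun := fun z => ∑ t, z t * w t
      map_zero' := by simp
      map_add' := fun x y => by simp [add_mul, Finset.sum_add_distrib] }
  obtain ⟨g, hg⟩ := Int.subgroup_cyclic φ.range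
  have hmem : ∀ t, ∃ c : ℤ, (w t : ℤ) = c * g := by
    intro t
    have h1 : (w t : ℤ) ∈ φ.range := ⟨Pi.single t 1, by
      change ∑ s, (Pi.single t 1 : Fin (d + 2) → ℤ) s * w s = w t
      rw [Finset.sum_eq_single t]
      · simp
      · intro s _ hs
        rw [Pi.single_eq_of_ne hs, zero_mul]
      · intro h
        exact absurd (Finset.mem_univ _) h⟩
    rw [hg, AddSubgroup.mem_closure_singleton] at h1
    obtain ⟨c, hc⟩ := h1
    exact ⟨c, by rw [← hc, smul_eq_mul]⟩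
  have hg0 : g ≠ 0 := by
    rintro rfl
    apply hv
    funext t
    obtain ⟨c, hc⟩ := hmem t
    rw [mul_zero, hw] at hc
    have h1 : Φ.ee t * v t = 0 := by exact_mod_cast hc
    exact (mul_eq_zero.1 h1).resolve_left (Φ.ee_pos t).ne'
  obtain ⟨z, hz⟩ : ∃ z : Fin (d + 2) → ℤ, ∑ t, z t * w t = g.natAbs := by
    have h1 : (g.natAbs : ℤ) ∈ φ.range := by
      rw [hg]
      have h2 : g ∈ AddSubgroup.closure {g} := AddSubgroup.subset_closure rfl
      rcases Int.natAbs_eq g with h3 | h3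
      · rw [← h3]
        exact h2
      · have h4 : (g.natAbs : ℤ) = - g := by omega
        rw [h4]
        exact AddSubgroup.neg_mem _ h2
    obtain ⟨z, hz⟩ := h1
    exact ⟨z, hz⟩
  have hgn : 0 < g.natAbs := Int.natAbs_pos.2 hg0
  have hdvd : ∀ t, g.natAbs ∣ w t := by
    intro t
    obtain ⟨c, hc⟩ := hmem t
    have h1 : g ∣ (w t : ℤ) := ⟨c, by rw [hc]; ring⟩
    have h2 := Int.natAbs_dvd_natAbs.2 h1
    simpa using h2
  choose V hV using hdvd
  have hone : ∑ t, (V t : ℤ) * z t = 1 := by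
    have h1 : (g.natAbs : ℤ) * ∑ t, (V t : ℤ) * z t = g.natAbs * 1 := by
      rw [mul_one, Finset.mul_sum]
      conv_rhs => rw [← hz]
      refine Finset.sum_congr rfl fun t _ => ?_
      have h2 : (w t : ℤ) = g.natAbs * V t := by exact_mod_cast hV t
      rw [h2]
      ring
    exact mul_left_cancel₀ (by exact_mod_cast hgn.ne') h1
  refine ⟨⟨v, V, g.natAbs, hgn, fun k => ?_, ⟨k0, ?_⟩, ⟨z, hone⟩, hT⟩, rfl⟩
  · rw [← hV, hw]
  · have h1 := hV k0
    rw [hw] at h1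
    dsimp only at h1
    rw [hk0, mul_zero] at h1
    exact (mul_eq_zero.1 h1.symm).resolve_left hgn.ne'

/-- the exponents of the forms -/
noncomputable def yv (Φ : Arr (d + 1)) (q : ℕ) (a : Fin (d + 1) →₀ ℕ) : Fin (d + 2) → ℤ :=
  Fin.cases ((Φ.ee 0 : ℤ) * (q - ∑ b, (a b : ℤ))) fun b => (Φ.ee b.succ : ℤ) * a b

theorem yv_zero (q : ℕ) (a : Fin (d + 1) →₀ ℕ) :
    yv Φ q a 0 = (Φ.ee 0 : ℤ) * (q - ∑ b, (a b : ℤ)) := rfl

theorem yv_succ (q : ℕ) (a : Fin (d + 1) →₀ ℕ) (b : Fin (d + 1)) :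
    yv Φ q a b.succ = (Φ.ee b.succ : ℤ) * a b := rfl

theorem dot_yv (q : ℕ) (a : Fin (d + 1) →₀ ℕ) (v : Fin (d + 2) → ℕ) :
    ∑ k, (v k : ℤ) * yv Φ q a k = (Φ.ee 0 * v 0 : ℤ) * (q - ∑ b, (a b : ℤ)) +
      ∑ b, (Φ.ee b.succ * v b.succ : ℤ) * a b := by
  rw [Fin.sum_univ_succ, yv_zero]
  simp only [yv_succ]
  congr 1
  · ring
  · exact Finset.sum_congr rfl fun b _ => by ring

theorem deg_yv (q : ℕ) (a : Fin (d + 1) →₀ ℕ) :
    ∑ k, (Φ.dF k : ℤ) * yv Φ q a k = Φ.E * q := by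
  have h1 : ∀ k, (Φ.dF k : ℤ) * Φ.ee k = Φ.E := fun k => by exact_mod_cast Φ.d_ee k
  rw [Fin.sum_univ_succ, yv_zero]
  simp only [yv_succ, ← mul_assoc, h1]
  rw [← Finset.mul_sum]
  ring

theorem dotq_yv (q : ℕ) (a : Fin (d + 1) →₀ ℕ) (v : Fin (d + 2) → ℕ) :
    dotL (fun k => (v k : ℚ)) (fun k => (yv Φ q a k : ℚ)) =
      ((∑ k, (v k : ℤ) * yv Φ q a k : ℤ) : ℚ) := by
  rw [dotL_apply]
  push_cast
  rfl

theorem kappa_nonneg (Φ : Arr (d + 1)) : 0 ≤ ∑ k, (Φ.dF k : ℤ) - (d + 2) := by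
  have h1 : ∑ k : Fin (d + 2), (1 : ℤ) ≤ ∑ k, (Φ.dF k : ℤ) :=
    Finset.sum_le_sum fun k _ => by exact_mod_cast Φ.hd k
  rw [Finset.sum_const, Finset.card_univ, Fintype.card_fin] at h1
  simp only [nsmul_eq_mul, mul_one] at h1
  push_cast at h1
  linarith

variable {δ : Place ℂ K → ℝ} {Aw : (Fin (d + 2) → ℕ) → ℚ}

/-- **Not pseudo-effective.** -/
theorem not_psef (hlc : LogC Φ.F Φ.dF C.x) (hB : BdU Φ.F Φ.dF C.x δ Aw)
    (hsub : ∀ v, Adm C.M C.a v → ∀ t : ℕ, 0 < t → Aw (fun k => t * v k) ≤ t * Aw v)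
    (hfin : (Set.range Aw).Finite) (hP : PiB C.M C.a Φ.dF Aw = ∅) (S : Finset K) :
    ∃ M : ℕ, ∀ j : ℕ, 1 ≤ j → ∀ ω : (Fin (d + 1) → Derivation ℂ K K) → K,
      SecP (d + 1) Set.univ δ (pw S j) (j * M) ω → ω = 0 := by
  classical
  rw [PiB_eq C.hM (by omega) hB.nonneg] at hP
  have : Finite (Red C.M C.a Aw) := (idx_finite hfin).to_subtype
  have : Fintype (Red C.M C.a Aw) := Fintype.ofFinite _
  choose T hT using fun s : Red C.M C.a Aw => C.exists_dir (idx_adm C.hM (by omega) s.2)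
  obtain ⟨C0, c, hC⟩ := C.sec_bound hlc hB hsub T S
  obtain ⟨κ, hκ⟩ : ∃ κ : ℤ, κ = ∑ k, (Φ.dF k : ℤ) - (d + 2) := ⟨_, rfl⟩
  have hκ0 : 0 ≤ κ := by
    rw [hκ]
    exact kappa_nonneg Φ
  have hκq : (∑ k, (Φ.dF k : ℚ) - ((d + 2 : ℕ) : ℚ)) = κ := by
    rw [hκ]
    push_cast
    ring
  have hdq : ∀ k, (0 : ℚ) < Φ.dF k := fun k => by exact_mod_cast Φ.hd k
  obtain ⟨c0, hc0, hc0y⟩ := lp_empty hdq
    (fun (s : Red C.M C.a Aw) k => by unfold rq; positivity) (by omega) hP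
  rw [hκq] at hc0y
  obtain ⟨M, hM⟩ := exists_nat_gt (c0 * (4 * c + Φ.E))
  refine ⟨M, fun j hj ω hω => ?_⟩
  by_contra hω0
  obtain ⟨X, hX⟩ : ∃ X : ℤ, X = κ * ((j * M : ℕ) : ℤ) + c * (j + 1) := ⟨_, rfl⟩
  have hX0 : 0 ≤ X := by
    rw [hX]
    positivity
  have hXn : (X.toNat : ℤ) = X := Int.toNat_of_nonneg hX0
  obtain ⟨q, hq⟩ : ∃ q : ℕ, q = X.toNat / Φ.E + 1 := ⟨_, rfl⟩
  have hq1 : X ≤ Φ.E * q := by
    have h1 : X.toNat < Φ.E * (X.toNat / Φ.E + 1) := Nat.lt_mul_div_succ _ Φ.E_pos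
    have h2 : (X.toNat : ℤ) ≤ Φ.E * q := by
      rw [hq]
      exact_mod_cast h1.le
    rwa [hXn] at h2
  have hq2 : (Φ.E * q : ℤ) ≤ X + Φ.E := by
    have h1 : (Φ.E * q : ℕ) ≤ X.toNat + Φ.E := by
      rw [hq, mul_add, mul_one]
      exact Nat.add_le_add_right (Nat.mul_div_le _ _) _
    have h2 : (Φ.E * q : ℤ) ≤ (X.toNat : ℤ) + Φ.E := by exact_mod_cast h1
    rwa [hXn] at h2
  have h1 := hC (j * M) j q 1 (fun _ => ω) ?_ (fun _ => hω) ?_ ∅ ?_
  · simp at h1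
  · rw [linearIndependent_unique_iff]
    exact hω0
  · rw [← hκ, ← hX]
    exact hq1
  · intro a ha
    exfalso
    have h2 := hc0y (fun k => (yv Φ q a k : ℚ)) ((j * M : ℕ) : ℚ) (c * (j + 1))
      (c * (j + 1) + Φ.E) (by positivity) (by positivity) (fun s => by
      change _ ≤ dotL (fun k => (s.1 k : ℚ)) _
      rw [dotq_yv, dot_yv]
      have h3 := ha s
      rw [hT] at h3
      exact h3) (by
      rw [dotq_yv, deg_yv]
      have h3 : ((Φ.E * q : ℤ) : ℚ) ≤ ((X + Φ.E : ℤ) : ℚ) := by exact_mod_cast hq2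
      refine h3.trans (le_of_eq ?_)
      rw [hX]
      push_cast
      ring)
    have hjq : (1 : ℚ) ≤ j := by exact_mod_cast hj
    push_cast at h2
    have h3 : (c : ℚ) * (j + 1) + (c * (j + 1) + Φ.E) ≤ (4 * c + Φ.E) * j := by
      have h4 : (Φ.E : ℚ) * 1 ≤ Φ.E * j := mul_le_mul_of_nonneg_left hjq (by positivity)
      have h5 : (c : ℚ) * 1 ≤ c * j := mul_le_mul_of_nonneg_left hjq (by positivity)
      nlinarith
    have h4 : (j : ℚ) * M ≤ c0 * ((4 * c + Φ.E) * j) :=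
      h2.trans (mul_le_mul_of_nonneg_left h3 hc0)
    have h5 : (j : ℚ) * M ≤ j * (c0 * (4 * c + Φ.E)) := by linarith
    have h6 := le_of_mul_le_mul_left h5 (by linarith)
    linarith

/-- **The numerical dimension.** -/
theorem num_le (hlc : LogC Φ.F Φ.dF C.x) (hBd : BdU Φ.F Φ.dF C.x δ Aw)
    (hsub : ∀ v, Adm C.M C.a v → ∀ t : ℕ, 0 < t → Aw (fun k => t * v k) ≤ t * Aw v)
    (hfin : (Set.range Aw).Finite) (hne : (PiB C.M C.a Φ.dF Aw).Nonempty) (S : Finset K) :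
    ∃ C1 : ℕ, ∀ (m N : ℕ), 1 ≤ m → ∀ ω : Fin N → (Fin (d + 1) → Derivation ℂ K K) → K,
      LinearIndependent ℂ ω → (∀ l, SecP (d + 1) Set.univ δ S m (ω l)) →
      N ≤ C1 * m ^ (Module.finrank ℚ (vectorSpan ℚ (PiB C.M C.a Φ.dF Aw))) := by
  classical
  rw [PiB_eq C.hM (by omega) hBd.nonneg] at hne ⊢
  have : Finite (Red C.M C.a Aw) := (idx_finite hfin).to_subtype
  have : Fintype (Red C.M C.a Aw) := Fintype.ofFinite _
  choose T hT using fun s : Red C.M C.a Aw => C.exists_dir (idx_adm C.hM (by omega) s.2)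
  obtain ⟨C0, c, hC⟩ := C.sec_bound hlc hBd hsub T S
  obtain ⟨κ, hκ⟩ : ∃ κ : ℤ, κ = ∑ k, (Φ.dF k : ℤ) - (d + 2) := ⟨_, rfl⟩
  have hκ0 : 0 ≤ κ := by
    rw [hκ]
    exact kappa_nonneg Φ
  have hκq : (∑ k, (Φ.dF k : ℚ) - ((d + 2 : ℕ) : ℚ)) = κ := by
    rw [hκ]
    push_cast
    ring
  rw [hκq] at hne ⊢
  have hdq : ∀ k, (0 : ℚ) < Φ.dF k := fun k => by exact_mod_cast Φ.hd k
  have hL : (0 : ℚ) < per C.M := by exact_mod_cast per_pos C.hM
  have hnn : ∀ y : Fin (d + 2) → ℚ, (∀ s : Red C.M C.a Aw, 0 ≤ dotL (rq s) y) →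
      ∀ k, 0 ≤ y k := by
    intro y hy k
    have h1 := nonneg_of_red C.hM hy k
    exact nonneg_of_mul_nonneg_right h1 hL
  obtain ⟨P, hP⟩ : ∃ P : Set (Fin (d + 2) → ℚ),
    P = Pol (fun k => (Φ.dF k : ℚ)) (κ : ℚ) (fun s : Red C.M C.a Aw => rq s)
      fun s => Aw s.1 := ⟨_, rfl⟩
  rw [← hP] at hne ⊢
  -- the implicit equations
  let I : Type := {s : Red C.M C.a Aw // ∀ y ∈ P, dotL (rq s) y = Aw s.1}
  have : Fintype I := Fintype.ofFinite _
  have hface : ∀ s : I, ∃ A0 : ℚ, 0 ≤ A0 ∧ ∀ (y : Fin (d + 2) → ℚ) (m c B : ℚ), 0 ≤ m → 0 ≤ c →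
      0 ≤ B → (∀ s : Red C.M C.a Aw, m * Aw s.1 - c ≤ dotL (rq s) y) →
      |dotL (fun k => (Φ.dF k : ℚ)) y - κ * m| ≤ B →
      dotL (rq s.1) y ≤ m * Aw s.1.1 + A0 * (c + B) := by
    intro s
    refine lp_face hdq hnn ?_
    rw [← hP]
    exact s.2
  choose A0 hA00 hA0 using hface
  obtain ⟨J, hJ1, hJ2⟩ := exists_coords (vectorSpan ℚ P)
  -- the constants
  obtain ⟨B, hB⟩ : ∃ B : ℕ, B = 2 * c + Φ.E := ⟨_, rfl⟩
  obtain ⟨C2, hC2⟩ := exists_nat_ge ((∑ s, A0 s) * (2 * c + B))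
  obtain ⟨C1, hC1⟩ : ∃ C1 : ℕ, C1 = C2 + 1 + 2 * c := ⟨_, rfl⟩
  obtain ⟨DD, hDD⟩ : ∃ DD : ℕ, DD = ∑ k, Φ.dF k := ⟨_, rfl⟩
  obtain ⟨B', hB'⟩ : ∃ B' : ℕ, B' = κ.toNat + B + 2 * c * DD + 2 * c := ⟨_, rfl⟩
  refine ⟨C0 * ((C1 + 1) ^ Fintype.card I * (2 * B' + 1) ^ Fintype.card J),
    fun m N hm ω hlin hsec => ?_⟩
  obtain ⟨X, hX⟩ : ∃ X : ℤ, X = κ * m + c * (1 + 1) := ⟨_, rfl⟩
  have hX0 : 0 ≤ X := by
    rw [hX]
    positivity
  obtain ⟨q, hq⟩ : ∃ q : ℕ, q = X.toNat / Φ.E + 1 := ⟨_, rfl⟩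
  have hXn : (X.toNat : ℤ) = X := Int.toNat_of_nonneg hX0
  have hq1 : X ≤ Φ.E * q := by
    have h1 : X.toNat < Φ.E * (X.toNat / Φ.E + 1) := Nat.lt_mul_div_succ _ Φ.E_pos
    have h2 : (X.toNat : ℤ) ≤ Φ.E * q := by
      rw [hq]
      exact_mod_cast h1.le
    rwa [hXn] at h2
  have hq2 : (Φ.E * q : ℤ) ≤ X + Φ.E := by
    have h1 : (Φ.E * q : ℕ) ≤ X.toNat + Φ.E := by
      rw [hq, mul_add, mul_one]
      exact Nat.add_le_add_right (Nat.mul_div_le _ _) _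
    have h2 : (Φ.E * q : ℤ) ≤ (X.toNat : ℤ) + Φ.E := by exact_mod_cast h1
    rwa [hXn] at h2
  let A : Finset (Fin (d + 1) →₀ ℕ) :=
    ((Fintype.piFinset fun _ : Fin (d + 1) => Finset.range (q + 2 * c + 1)).image
      Finsupp.equivFunOnFinite.symm).filter fun a => ∀ s : Red C.M C.a Aw,
        (m : ℚ) * Aw s.1 - 2 * c ≤ ((∑ k, (s.1 k : ℤ) * yv Φ q a k : ℤ) : ℚ)
  have hA1 : ∀ a : Fin (d + 1) →₀ ℕ, (∀ s : Red C.M C.a Aw,
      (m : ℚ) * Aw s.1 - 2 * c ≤ ((∑ k, (s.1 k : ℤ) * yv Φ q a k : ℤ) : ℚ)) →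
      ∀ k, -(2 * c : ℤ) ≤ yv Φ q a k := by
    intro a ha k
    have h1 := ha ⟨_, Or.inr ⟨k, rfl⟩⟩
    dsimp only at h1
    rw [Finset.sum_eq_single k (fun i _ hi => by rw [if_neg hi, Nat.cast_zero, zero_mul])
      (fun h => absurd (Finset.mem_univ _) h), if_pos rfl] at h1
    have h2 : (1 : ℤ) ≤ per C.M := by exact_mod_cast per_pos C.hM
    have h3 : (0 : ℚ) ≤ m * Aw (fun i => if i = k then per C.M else 0) :=
      mul_nonneg (by positivity) (hBd.nonneg _)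
    have h4 : ((-(2 * c : ℤ) : ℤ) : ℚ) ≤ (((per C.M : ℤ) * yv Φ q a k : ℤ) : ℚ) := by
      push_cast at h1 ⊢
      linarith
    have h5 : -(2 * c : ℤ) ≤ (per C.M : ℤ) * yv Φ q a k := by exact_mod_cast h4
    by_contra hneg
    push Not at hneg
    nlinarith
  have hAmem : ∀ a ∈ A, ∀ s : Red C.M C.a Aw,
      (m : ℚ) * Aw s.1 - 2 * c ≤ ((∑ k, (s.1 k : ℤ) * yv Φ q a k : ℤ) : ℚ) := fun a ha =>
    (Finset.mem_filter.1 ha).2
  have hqκ : ∀ a : Fin (d + 1) →₀ ℕ,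
      |dotL (fun k => (Φ.dF k : ℚ)) (fun k => (yv Φ q a k : ℚ)) - κ * m| ≤ B := by
    intro a
    rw [dotq_yv, deg_yv, abs_le]
    have h1 : ((X : ℤ) : ℚ) ≤ ((Φ.E * q : ℤ) : ℚ) := by exact_mod_cast hq1
    have h2 : ((Φ.E * q : ℤ) : ℚ) ≤ ((X + Φ.E : ℤ) : ℚ) := by exact_mod_cast hq2
    rw [hX] at h1 h2
    push_cast at h1 h2 ⊢
    rw [hB]
    push_cast
    have h3 : (0 : ℚ) ≤ c := by positivity
    have h4 : (0 : ℚ) ≤ Φ.E := by positivity
    constructor <;> linarith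
  have hcard : A.card ≤ (C1 + 1) ^ Fintype.card I * (2 * B' + 1) ^ Fintype.card J *
      m ^ Fintype.card J := by
    refine count A (fun a (s : I) => ∑ k, (s.1.1 k : ℤ) * yv Φ q a k - ⌊(m : ℚ) * Aw s.1.1⌋)
      (fun a (k : J) => yv Φ q a k.1) (-(2 * c : ℤ)) C1 B' hm (fun a ha s => ?_)
      (fun a ha k => ?_) fun a ha b hb h1 h2 => ?_
    · have h1 := hA0 s (fun k => (yv Φ q a k : ℚ)) m (2 * c) B (by positivity) (by positivity)
        (by positivity) (fun t => by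
          change _ ≤ dotL (fun k => (t.1 k : ℚ)) _
          rw [dotq_yv]
          exact hAmem a ha t) (hqκ a)
      change dotL (fun k => (s.1.1 k : ℚ)) _ ≤ _ at h1
      rw [dotq_yv] at h1
      have h2 : A0 s ≤ ∑ s, A0 s :=
        Finset.single_le_sum (f := A0) (fun s _ => hA00 s) (Finset.mem_univ s)
      have h3 : A0 s * (2 * c + B) ≤ (∑ s, A0 s) * (2 * c + B) :=
        mul_le_mul_of_nonneg_right h2 (by positivity)
      have h4 := hAmem a ha s.1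
      have h5 := Int.floor_le ((m : ℚ) * Aw s.1.1)
      have h6 := Int.lt_floor_add_one ((m : ℚ) * Aw s.1.1)
      constructor
      · have h7 : ((-(2 * c : ℤ) : ℤ) : ℚ) ≤
            ((∑ k, (s.1.1 k : ℤ) * yv Φ q a k - ⌊(m : ℚ) * Aw s.1.1⌋ : ℤ) : ℚ) := by
          push_cast at h4 ⊢
          linarith
        exact_mod_cast h7
      · have h7 : ((∑ k, (s.1.1 k : ℤ) * yv Φ q a k - ⌊(m : ℚ) * Aw s.1.1⌋ : ℤ) : ℚ) ≤
            ((-(2 * c : ℤ) + C1 : ℤ) : ℚ) := by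
          rw [hC1]
          push_cast at h1 ⊢
          linarith
        exact_mod_cast h7
    · have h1 := hA1 a (hAmem a ha)
      constructor
      · refine le_trans ?_ (h1 k.1)
        rw [hB']
        push_cast
        have : (0 : ℤ) ≤ κ.toNat + B + 2 * c * DD := by positivity
        linarith
      · -- the upper bound
        have h2 := deg_yv (Φ := Φ) q a
        have h3 : (Φ.dF k.1 : ℤ) * (yv Φ q a k.1 + 2 * c) ≤
            ∑ i, (Φ.dF i : ℤ) * (yv Φ q a i + 2 * c) :=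
          Finset.single_le_sum (f := fun i => (Φ.dF i : ℤ) * (yv Φ q a i + 2 * c))
            (fun i _ => mul_nonneg (by positivity) (by linarith [h1 i])) (Finset.mem_univ k.1)
        simp only [mul_add] at h3
        rw [Finset.sum_add_distrib, h2, ← Finset.sum_mul] at h3
        have h4 : (∑ i, (Φ.dF i : ℤ)) = DD := by
          rw [hDD]
          push_cast
          rfl
        rw [h4] at h3
        have h5 : (1 : ℤ) ≤ Φ.dF k.1 := by exact_mod_cast Φ.hd k.1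
        have h6 : yv Φ q a k.1 + 2 * c ≤ (Φ.dF k.1 : ℤ) * (yv Φ q a k.1 + 2 * c) := by
          have h7 : 0 ≤ yv Φ q a k.1 + 2 * c := by linarith [h1 k.1]
          nlinarith
        have h7 : (κ.toNat : ℤ) = κ := Int.toNat_of_nonneg hκ0
        have hm1 : (1 : ℤ) ≤ m := by exact_mod_cast hm
        rw [hB']
        push_cast
        rw [h7, hB]
        push_cast
        rw [hX] at hq2
        have h8 : (0 : ℤ) ≤ c := by positivity
        have h9 : (0 : ℤ) ≤ Φ.E := by positivity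
        have h10 : (0 : ℤ) ≤ c * DD := by positivity
        have h11 : (2 * c : ℤ) * 1 ≤ 2 * c * m := mul_le_mul_of_nonneg_left hm1 (by positivity)
        have h12 : (Φ.E : ℤ) * 1 ≤ Φ.E * m := mul_le_mul_of_nonneg_left hm1 h9
        have h13 : (2 * (c * DD) : ℤ) * 1 ≤ 2 * (c * DD) * m :=
          mul_le_mul_of_nonneg_left hm1 (by positivity)
        nlinarith
    · -- injectivity
      have h3 : (fun k => (yv Φ q a k : ℚ)) - (fun k => (yv Φ q b k : ℚ)) ∈ vectorSpan ℚ P := by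
        rw [hP, vectorSpan_eq (by rw [← hP]; exact hne)]
        refine ⟨?_, fun s hs => ?_⟩
        · rw [map_sub, dotq_yv, dotq_yv, deg_yv, deg_yv, sub_self]
        · rw [← hP] at hs
          have h4 := congrFun h1 ⟨s, hs⟩
          dsimp only at h4
          have h5 : ∑ k, (s.1 k : ℤ) * yv Φ q a k = ∑ k, (s.1 k : ℤ) * yv Φ q b k := by
            linarith
          change dotL (fun k => (s.1 k : ℚ)) _ = 0
          rw [map_sub, dotq_yv, dotq_yv, h5, sub_self]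
      have h4 := hJ2 _ h3 fun k hk => by
        have h5 := congrFun h2 ⟨k, hk⟩
        dsimp only at h5
        rw [Pi.sub_apply, h5, sub_self]
      ext i
      have h5 := congrFun h4 i.succ
      rw [Pi.sub_apply, Pi.zero_apply, sub_eq_zero, yv_succ, yv_succ] at h5
      have h6 : (Φ.ee i.succ : ℤ) * a i = (Φ.ee i.succ : ℤ) * b i := by exact_mod_cast h5
      have h7 : (Φ.ee i.succ : ℤ) ≠ 0 := by exact_mod_cast (Φ.ee_pos _).ne'
      exact_mod_cast mul_left_cancel₀ h7 h6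
  have hfin := hC m 1 q N ω hlin (fun l => by rw [Pool.Agent.Y169.CH.Cvr.pw_one]; exact hsec l) (by
    rw [← hκ]
    rw [hX] at hq1
    exact_mod_cast hq1) A fun a ha => ?_
  · refine hfin.trans ?_
    rw [← hJ1]
    have h1 : Fintype.card J = J.card := Fintype.card_coe J
    rw [h1] at hcard
    calc C0 * A.card ≤ C0 * ((C1 + 1) ^ Fintype.card I * (2 * B' + 1) ^ J.card * m ^ J.card) :=
          Nat.mul_le_mul_left _ hcard
      _ = _ := by
        rw [h1]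
        ring
  · have ha' : ∀ s : Red C.M C.a Aw,
        (m : ℚ) * Aw s.1 - 2 * c ≤ ((∑ k, (s.1 k : ℤ) * yv Φ q a k : ℤ) : ℚ) := by
      intro s
      have h1 := ha s
      rw [hT] at h1
      rw [dot_yv]
      refine le_trans (le_of_eq ?_) h1
      push_cast
      ring
    refine Finset.mem_filter.2 ⟨Finset.mem_image.2 ⟨Finsupp.equivFunOnFinite a, ?_, by simp⟩, ha'⟩
    rw [Fintype.mem_piFinset]
    intro b
    rw [Finset.mem_range]
    change a b < _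
    have h1 := hA1 a ha' 0
    rw [yv_zero] at h1
    have h2 : (1 : ℤ) ≤ Φ.ee 0 := by exact_mod_cast Φ.ee_pos 0
    have h3 : (a b : ℤ) ≤ ∑ b, (a b : ℤ) :=
      Finset.single_le_sum (f := fun b => (a b : ℤ)) (fun _ _ => by positivity) (Finset.mem_univ b)
    have h4 : -(2 * c : ℤ) ≤ q - ∑ b, (a b : ℤ) := by
      by_contra hneg
      push Not at hneg
      have : (0 : ℤ) ≤ c := by positivity
      nlinarith
    have h5 : (a b : ℤ) < ((q + 2 * c + 1 : ℕ) : ℤ) := by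
      push_cast
      linarith
    exact_mod_cast h5

end Cv

end Pool.Agent.K3h47.NC
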