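import Pool.Agent.K3h47.NC.Fin
import Pool.Agent.R885.W9

/-!
Pairs which are commensurable with a given pair.
-/

set_option autoImplicit false
set_option linter.overlappingInstances false
set_option linter.unusedSectionVars false
set_option maxHeartbeats 400000

open FF MvPolynomial Pool.Agent.W602.GT Pool.Agent.W619.PQ Pool.Agent.W619.TW
  Pool.Agent.Y172 Pool.Agent.Y191 Pool.Agent.Y174

namespace Pool.Agent.K3h47.NC

section conv

variable {K : Type} [Field K] [Algebra ℂ K] {n : ℕ} {δ : Place ℂ K → ℝ}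

theorem kod_conv {d : ℕ} (h : BKod n K δ d) : PairKod ℂ K n δ d := by
  obtain ⟨m, hm, ω, hω, D, hD, hind⟩ := h
  refine ⟨m, hm, ω, fun l => ⟨(hω l).1, fun v hv E hE => ?_⟩, D, ?_, hind⟩
  · refine ((hω l).2 v hv E hE).imp_right ?_
    rintro ⟨s, hs, hs0, hle⟩
    refine ⟨s, hs, hs0, ?_⟩
    rw [Finset.mem_singleton] at hs
    subst hs
    rw [v.ord_one] at hle ⊢
    simpa using hle
  · intro l
    refine Fin.cases hD (fun i => ?_) l
    intro h0
    have h1 := hind.ne_zero i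
    apply h1
    rw [h0, zero_div]

theorem num_conv {d : ℕ} (h : BNum n K δ d) : PairNum ℂ K n δ d := by
  intro S
  obtain ⟨C, hC⟩ := h S
  refine ⟨C, fun m N hm hI => hC m N hm ?_⟩
  obtain ⟨ω, hli, hω⟩ := hI
  exact ⟨ω, hli, fun l => hω l⟩

theorem neg_conv (h : ¬ BPsef n K δ) : Pool.Agent.R885.N.NegB ℂ K n δ := by
  classical
  intro T
  unfold BPsef at h
  push Not at h
  obtain ⟨M, hM⟩ := h (insert 1 T)
  refine ⟨max M 1, fun M' hM' ω hω => ?_⟩
  by_contra h0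
  have hM1 : M ≤ M' := (le_max_left _ _).trans hM'
  have hM2 : 1 ≤ M' := (le_max_right _ _).trans hM'
  refine hM M' hM2 (fun D => ω D ^ M) ?_ ⟨?_, ?_⟩
  · obtain ⟨D, hD⟩ : ∃ D, ω D ≠ 0 := by
      by_contra hcon
      push Not at hcon
      exact h0 (funext hcon)
    intro h1
    exact pow_ne_zero M hD (congrFun h1 D)
  · intro A D
    have h1 := hω.1 A D
    dsimp only
    rw [h1, mul_pow, ← pow_mul]
  · intro P hP D hD
    dsimp only
    by_cases hM0 : M = 0
    · right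
      refine ⟨1, Finset.mem_insert_self _ _, one_ne_zero, ?_⟩
      rw [hM0, pow_zero, P.ord_one]
      simp
    rcases hω.2 P hP D hD with h1 | ⟨s, hs, hs0, h1⟩
    · left
      rw [h1, zero_pow hM0]
    · right
      have h2 : (M : ℝ) * (((1 : ℕ) : ℝ) * P.ord s - M' * δ P) ≤ M * P.ord (ω D) :=
        mul_le_mul_of_nonneg_left h1 (by positivity)
      rw [P.ord_pow]
      push_cast at h2 ⊢
      by_cases hs1 : P.ord s ≤ 0
      · refine ⟨s, Finset.mem_insert_of_mem hs, hs0, ?_⟩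
        have h3 : (M' : ℝ) * P.ord s ≤ M * P.ord s := by
          have h4 : (M : ℝ) ≤ M' := by exact_mod_cast hM1
          have h5 : ((P.ord s : ℤ) : ℝ) ≤ 0 := by exact_mod_cast hs1
          exact mul_le_mul_of_nonpos_right h4 h5
        linarith
      · refine ⟨1, Finset.mem_insert_self _ _, one_ne_zero, ?_⟩
        rw [P.ord_one]
        have h5 : (0 : ℝ) ≤ ((P.ord s : ℤ) : ℝ) := by
          have : 0 ≤ P.ord s := by omega
          exact_mod_cast this
        have h6 : (0 : ℝ) ≤ M * ((P.ord s : ℤ) : ℝ) := by positivity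
        push_cast
        linarith

end conv

section com

variable {K L M : Type} [Field K] [Field L] [Field M]
    [Algebra ℂ K] [Algebra ℂ L] [Algebra ℂ M] [Algebra K M] [Algebra L M] [IsScalarTower ℂ K M]
    [IsScalarTower ℂ L M] [FiniteDimensional K M] [FiniteDimensional L M]

/-- the data on `X` -/
theorem com_data {n : ℕ} (htr : Algebra.trdeg ℂ L = (n : ℕ)) (hessL : Algebra.EssFiniteType ℂ L)
    {b : Place ℂ L → ℚ} {N : ℕ} {y : Fin (N + 1) → K} {Δ : Place ℂ K → ℚ}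
    (hy : Pool.Agent.R885.N.IsCommensurable M b y n Δ) :
    Algebra.trdeg ℂ K = (n : ℕ) ∧ ∃ δ : Place ℂ K → ℚ,
      (∀ d, PairKod ℂ L n (fun P => ((b P : ℚ) : ℝ)) d →
        PairKod ℂ K n (fun P => ((δ P : ℚ) : ℝ)) d) ∧
      (∀ d, PairNum ℂ L n (fun P => ((b P : ℚ) : ℝ)) d →
        PairNum ℂ K n (fun P => ((δ P : ℚ) : ℝ)) d) ∧
      (Pool.Agent.R885.N.NegB ℂ L n (fun P => ((b P : ℚ) : ℝ)) →
        Pool.Agent.R885.N.NegB ℂ K n (fun P => ((δ P : ℚ) : ℝ))) ∧
      (∀ P, IsPrimeDivisor y P → δ P ≤ Δ P) ∧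
      ∀ Q, Divisorial n Q → LogDisc y n Δ Q (1 - δ Q) := by
  classical
  choose e v hv using fun w : Place ℂ M => Pool.Agent.W73.PG.PULL.exists_over' (K := L) w
  obtain ⟨β, hβ⟩ : ∃ β : Place ℂ M → ℚ, β = fun w => 1 - (e w : ℚ) * (1 - b (v w)) := ⟨_, rfl⟩
  have hβ1 : ∀ (Q : Place ℂ L) (Q' : Place ℂ M) (e' : ℕ), LiesOn Q' Q e' →
      β Q' = 1 - e' * (1 - b Q) := by
    intro Q Q' e' hQ'
    obtain ⟨h1, h2⟩ := Pool.Agent.R885.N.over_uniq hQ' (hv Q')
    rw [hβ, h1, h2]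
  have hpb : Pool.Agent.R885.N.IsPulledBack β y n Δ := by
    refine ⟨hy.normal, hy.effective, ?_, ?_⟩
    · intro P hP P' e' hP'
      rw [hβ]
      beta_reduce
      rw [hy.mult P hP P' (v P') e' (e P') hP' (hv P')]
    · intro P hP P' e' hP'
      rw [hβ]
      beta_reduce
      rw [sub_sub_cancel]
      exact hy.disc P hP P' (v P') e' (e P') hP' (hv P')
  have hessM : Algebra.EssFiniteType ℂ M := Pool.Agent.R885.N.w6_ess (K := L) hessL
  have htrM : Algebra.trdeg ℂ M = (n : ℕ) := Pool.Agent.R885.N.w6_trdeg (K := L) htr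
  have htrK : Algebra.trdeg ℂ K = (n : ℕ) := by
    have h1 := trdeg_add_eq ℂ K (A := M)
    have h2 : Algebra.trdeg K M = 0 := trdeg_eq_zero
    rw [h2, add_zero, htrM] at h1
    exact h1
  obtain ⟨z', hz'⟩ := Pool.Agent.W636.PG.exists_basis ℂ K n htrK
  have hessK : Algebra.EssFiniteType ℂ K := Pool.Agent.Y174.ess_down hessM z' hz'
  have hβ' : ∀ v, IsDivisorial v n → ∀ (w : Place ℂ M) e, LiesOn w v e →
      (fun P => ((β P : ℚ) : ℝ)) w = 1 - e * (1 - (fun P => ((b P : ℚ) : ℝ)) v) := by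
    intro v hv w e hwv
    beta_reduce
    rw [hβ1 v w e hwv]
    push_cast
    ring
  obtain ⟨k1, k2, k3⟩ := Pool.Agent.R885.N.fin_all (K := L) (L := M) hessL htr hβ'
  obtain ⟨δ, d1, d2, d3, d4, d5⟩ := Pool.Agent.R885.N.pulled_data hessK htrK hpb
  exact ⟨htrK, δ, fun d h => d1 d ((k1 d).2 h), fun d h => d2 d ((k2 d).2 h),
    fun h => d3 (k3.2 h), d4, d5⟩

/-- **Pairs which are commensurable with a given pair.** -/
theorem com_final {n : ℕ} (htr : Algebra.trdeg ℂ L = (n : ℕ)) (hessL : Algebra.EssFiniteType ℂ L)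
    {b : Place ℂ L → ℚ} {N : ℕ} {y : Fin (N + 1) → K} {Δ : Place ℂ K → ℚ}
    (hy : Pool.Agent.R885.N.IsCommensurable M b y n Δ) :
    (∀ d, BKod n L (fun P => ((b P : ℚ) : ℝ)) d → BNum n L (fun P => ((b P : ℚ) : ℝ)) d →
      kodairaDim y n Δ = (d : WithBot ℕ) ∧
      ∀ A, Effective y A → Integral y A → numericalDim y n Δ A = (d : EReal)) ∧
    (¬ BPsef n L (fun P => ((b P : ℚ) : ℝ)) → kodairaDim y n Δ = ⊥ ∧ ∀ A, Effective y A →
      (∃ M0 : ℕ, ∀ m : ℕ, M0 ≤ m → h0 y n m (m • Δ + A) = 0) ∧ numericalDim y n Δ A = ⊥) := by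
  obtain ⟨htrK, δ, h1, h2, h3, h4, h5⟩ := com_data htr hessL hy
  refine ⟨fun d hk hn => ?_, fun h => ?_⟩
  · exact Pool.Agent.R885.dims_pair htrK hy.normal hy.effective h4 h5 (h1 d (kod_conv hk))
      (h2 d (num_conv hn))
  · exact Pool.Agent.R885.neg_pair htrK hy.normal h5 (h3 (neg_conv h))

end com

end Pool.Agent.K3h47.NC
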