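import Pool.Agent.K3h47.NC.Fin
import Pool.Agent.Y169.CP.Pg2
import Pool.Agent.Y169.CP.Eff

/-!
Effective nonvanishing without boundary.
-/

set_option autoImplicit false
set_option linter.overlappingInstances false
set_option linter.unusedSectionVars false
set_option maxHeartbeats 400000

open FF MvPolynomial Pool.Agent.W603.LV Pool.Agent.W602.GT Pool.Agent.W602.Cov
open Pool.Agent.W602.Cov.G Pool.Agent.TH152.AC Pool.Agent.TH122.AB Pool.Agent.Y169.CH
open Pool.Agent.TH756.PN Pool.Agent.W619.PQ Pool.Agent.W619.TW Pool.Agent.W619.Y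
open Pool.Agent.Y169.TH (Dat PiA)

namespace Pool.Agent.K3h47.NC

theorem piB_one {N R : ℕ} (M : Fin R → ℕ) (a : Fin R → Fin N → ℕ) (dF : Fin N → ℕ) :
    PiB M a dF (fun _ => 1) = PiA M a dF := rfl

/-- the pluricanonical form of a point of the polyhedron -/
theorem form_of_pointL {d : ℕ} {Φ : Arr (d + 1)} {K : Type} [Field K] [Algebra ℂ K] {R : ℕ}
    (C : Cv Φ K R) (hlc : Cv.LogC Φ.F Φ.dF C.x) {y : Fin (d + 2) → ℚ}
    (hy : y ∈ PiA C.M C.a Φ.dF) {T : ℕ} (hT : ∀ k, ∃ z : ℤ, (T : ℚ) * y k = z) :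
    ∃ ω : (Fin (d + 1) → Derivation ℂ K K) → K, ω ≠ 0 ∧ ASec (d + 1) {1} T 1 ω := by
  classical
  have htr := trdeg_of_basis C.u_bas
  choose w hw using hT
  have hdeg : ∑ k, (Φ.dF k : ℤ) * w k = T * (∑ k, (Φ.dF k : ℤ) - (d + 2)) := by
    have h1 : ((∑ k, (Φ.dF k : ℤ) * w k : ℤ) : ℚ) =
        ((T * (∑ k, (Φ.dF k : ℤ) - (d + 2)) : ℤ) : ℚ) := by
      have h2 := hy.1
      push_cast
      have h3 : ∀ k, (Φ.dF k : ℚ) * w k = T * (Φ.dF k * y k) := by
        intro k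
        rw [← hw k]
        ring
      rw [Finset.sum_congr rfl fun k _ => h3 k, ← Finset.mul_sum, h2]
      push_cast
      ring
    exact_mod_cast h1
  obtain ⟨D0, hD0⟩ := exists_dual C.u_bas
  have hbw0 : bw D0 C.x = 1 := by
    rw [Pool.Agent.W930.CG.bw_one D0 C.x C.hx0]
    change (Matrix.of fun i j => D0 i (C.u j)).det = 1
    rw [hD0, Matrix.det_one]
  obtain ⟨Ex, hEx⟩ : ∃ Ex : K, Ex = ∏ k, aeval C.x (Φ.F k) ^ (w k - T) := ⟨_, rfl⟩
  have hExne : Ex ≠ 0 := by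
    rw [hEx]
    exact Finset.prod_ne_zero_iff.2 fun k _ => zpow_ne_zero _ (C.F_ne k)
  refine ⟨fun D => bw D C.x ^ T * Ex, ?_, ?_, ?_⟩
  · intro h0
    have h1 : bw D0 C.x ^ T * Ex = 0 := congrFun h0 D0
    rw [hbw0, one_pow, one_mul] at h1
    exact hExne h1
  · intro A D
    dsimp only
    rw [(bwa (d + 1) K).2.1 A D C.x, mul_pow]
    ring
  · intro P hP D hD
    obtain ⟨α, v, hα, hdat⟩ := C.exists_dat P
    have h1 : Ge P ((((d + 1 : ℕ) : ℤ) + 1) * α + ∑ k, (v k : ℤ) - (if v = 0 then 0 else 1))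
        (bw D C.x) := by
      by_cases hv : v = 0
      · subst hv
        rw [if_pos rfl, sub_zero]
        exact bw_zero_ord hdat hD
      · rw [if_neg hv]
        exact lc_reg hlc htr C.fin_all' hP hdat hD
    have hEord : P.ord Ex = ∑ k, (w k - T) * (Φ.dF k * α + v k) := by
      rw [hEx, ord_prod' P Finset.univ _ fun k _ => zpow_ne_zero _ (C.F_ne k)]
      exact Finset.sum_congr rfl fun k _ => by rw [P.ord_zpow, hdat.hv]
    have h2 := (h1.pow T).mul (ge_ord P Ex)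
    dsimp only
    rcases h2 with h2 | h2
    · exact Or.inl h2
    · right
      refine ⟨1, by simp, one_ne_zero, ?_⟩
      rw [P.ord_one, mul_zero]
      refine le_trans ?_ h2
      rw [hEord]
      have h3 : ∑ k, (w k - T) * (Φ.dF k * α + v k) =
          α * (∑ k, (Φ.dF k : ℤ) * w k) + ∑ k, w k * v k -
          T * α * ∑ k, (Φ.dF k : ℤ) - T * ∑ k, (v k : ℤ) := by
        rw [Finset.mul_sum, Finset.mul_sum, Finset.mul_sum, ← Finset.sum_add_distrib,
          ← Finset.sum_sub_distrib, ← Finset.sum_sub_distrib]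
        exact Finset.sum_congr rfl fun k _ => by ring
      rw [h3, hdeg]
      have h4 : (T : ℤ) * (if v = 0 then 0 else 1) ≤ ∑ k, w k * v k := by
        by_cases hv : v = 0
        · rw [if_pos hv, hv]
          simp
        · rw [if_neg hv]
          have h5 := hy.2 v (C.adm hdat hv)
          have h6 : (T : ℚ) * 1 ≤ T * ∑ k, (v k : ℚ) * y k :=
            mul_le_mul_of_nonneg_left h5 (by positivity)
          have h7 : (T : ℚ) * ∑ k, (v k : ℚ) * y k = ((∑ k, w k * v k : ℤ) : ℚ) := by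
            rw [Finset.mul_sum]
            push_cast
            refine Finset.sum_congr rfl fun k _ => ?_
            rw [← hw k]
            ring
          rw [h7] at h6
          exact_mod_cast h6
      push_cast
      nlinarith

section

variable {N : ℕ} {K : Type} [Field K] [Algebra ℂ K]

theorem bsec_zero {S : Finset K} {m j : ℕ} {ω : (Fin N → Derivation ℂ K K) → K} :
    BSec N (fun _ => 0) S m j ω ↔ ASec N S m j ω := by
  unfold BSec ASec
  refine and_congr Iff.rfl ?_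
  refine forall_congr' fun P => forall_congr' fun _ => forall_congr' fun D =>
    forall_congr' fun _ => or_congr Iff.rfl ?_
  refine exists_congr fun s => and_congr Iff.rfl (and_congr Iff.rfl ?_)
  rw [mul_zero, sub_zero]
  constructor
  · intro h
    exact_mod_cast h
  · intro h
    exact_mod_cast h

theorem bpsef_zero : BPsef N K (fun _ => 0) ↔ APsef N K := by
  unfold BPsef APsef
  simp only [bsec_zero]

theorem bkod_zero {h : ℕ} : BKod N K (fun _ => 0) h ↔ AKod N K h := by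
  unfold BKod AKod
  simp only [bsec_zero]

theorem bnum_zero {h : ℕ} : BNum N K (fun _ => 0) h ↔ ANum N K h := by
  unfold BNum ANum
  simp only [bsec_zero]

theorem bdU_zero {n : ℕ} {F : Fin (n + 1) → MvPolynomial (Fin (n + 1)) ℂ} {d : Fin (n + 1) → ℕ}
    {x : Fin (n + 1) → K} : BdU F d x (fun _ => 0) (fun _ => 1) :=
  ⟨fun _ _ _ _ => le_rfl, fun _ _ _ _ _ _ => by simp, fun _ => zero_le_one⟩

theorem bdL_zero {n : ℕ} {F : Fin (n + 1) → MvPolynomial (Fin (n + 1)) ℂ} {d : Fin (n + 1) → ℕ}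
    {x : Fin (n + 1) → K} : BdL F d x (fun _ => 0) (fun _ => 1) :=
  ⟨fun _ _ => le_rfl, fun _ _ _ _ _ _ => by simp⟩

end

/-- **Effective nonvanishing.** -/
theorem effective (n R : ℕ) (hn : 1 ≤ n) (d : Fin (n + 1) → ℕ) (hd : ∀ k, 1 ≤ d k)
    (F : Fin (n + 1) → MvPolynomial (Fin (n + 1)) ℂ) (hF : ∀ k, (F k).IsHomogeneous (d k))
    (hF0 : ∀ k, F k ≠ 0) (hF1 : Ncz F)
    (hlc : ∀ P : Place ℂ (Rf n), Divisorial n P →
      ∀ D : Fin n → Derivation ℂ (Rf n) (Rf n), (∀ c, DerLog P (D c)) →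
      Om (gp n) D = 0 ∨ 0 ≤ lo F d (gp n) P D)
    (m : Fin R → ℕ) (hm : ∀ j, 1 ≤ m j) (a : Fin R → Fin (n + 1) → ℕ)
    (hdiv : ∀ j, m j ∣ ∑ k, a j k * d k)
    (K : Type) [Field K] [Algebra ℂ K] (x : Fin (n + 1) → K) (hx0 : x 0 ≠ 0)
    (hbas : IsTranscendenceBasis ℂ fun b : Fin n => x b.succ / x 0) (z : Fin R → K)
    (hz : ∀ j, z j ^ m j = ∏ k, (aeval x (F k) / x 0 ^ d k) ^ a j k)
    (hgen : IntermediateField.adjoin ℂ
      (Set.range (fun b : Fin n => x b.succ / x 0) ∪ Set.range z) = ⊤)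
    (B : ℕ) (hdB : ∀ k, d k ≤ B) (hmB : ∏ j, m j ≤ B) :
    (APsef n K ↔ (PiA m a d).Nonempty) ∧
    (AKod n K 0 ↔ (PiA m a d).Nonempty) ∧
    ((PiA m a d).Nonempty →
      AKod n K (Module.finrank ℚ (vectorSpan ℚ (PiA m a d))) ∧
      ANum n K (Module.finrank ℚ (vectorSpan ℚ (PiA m a d)))) ∧
    ((PiA m a d).Nonempty → ∃ T : ℕ, 1 ≤ T ∧ T ≤ (n + 1).factorial * B ^ (n + 1) ∧
      ∃ ω : (Fin n → Derivation ℂ K K) → K, ω ≠ 0 ∧ ASec n {1} T 1 ω) := by
  obtain ⟨e, rfl⟩ : ∃ e, n = e + 1 := ⟨n - 1, by omega⟩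
  have hm' : ∀ j, 0 < m j := hm
  obtain ⟨Φ, h1, C, h2, h3, c, hc⟩ := exists_cv hx0 hbas hd hF hF0 hF1 hm' hz hdiv hgen
  have hlcx : Cv.LogC F d x := logC_gen hF (logC_of hlc) hx0 hbas (C.fin_all' _ hbas)
  have hmain := main hx0 hbas hd hF hF0 hF1 hm' hz hdiv hgen hlcx
    (δ := fun _ => 0) (A := fun _ => 1) bdU_zero bdL_zero
    (fun v _ t ht => by
      have : (1 : ℚ) ≤ t := by exact_mod_cast ht
      linarith) (Set.finite_range_const.subset (le_refl _) : (Set.range fun _ : Fin (e + 2) → ℕ => (1 : ℚ)).Finite)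
  rw [piB_one, bpsef_zero, bkod_zero, bkod_zero, bnum_zero] at hmain
  refine ⟨hmain.1, hmain.2.1, hmain.2.2, fun hne => ?_⟩
  obtain ⟨y, hy, T, hT1, hT2, hT3⟩ := Pool.Agent.Y169.CP.small_point hm' (by omega) hd hne hdB hmB
  refine ⟨T, hT1, hT2, ?_⟩
  subst h1 h2 h3
  exact form_of_pointL C (hc.logC hlcx) hy hT3

end Pool.Agent.K3h47.NC
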