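import Pool.Agent.K3h47.NC.Mak

/-!
The generic point, the multiplicities, the coefficients of the boundary.
-/

set_option autoImplicit false
set_option linter.overlappingInstances false
set_option linter.unusedSectionVars false
set_option maxHeartbeats 400000

open FF MvPolynomial Pool.Agent.W603.LV Pool.Agent.W602.GT Pool.Agent.W602.Cov
open Pool.Agent.W602.Cov.G Pool.Agent.TH152.AC Pool.Agent.TH122.AB Pool.Agent.Y169.CH
open Pool.Agent.Y169.TH (Dat)

namespace Pool.Agent.K3h47.NC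

section gen

/-- the rational functions -/
abbrev Rf (n : ℕ) : Type := FractionRing (MvPolynomial (Fin n) ℂ)

/-- the homogeneous coordinates of the generic point -/
noncomputable def gp (n : ℕ) (j : Fin (n + 1)) : Rf n :=
  Fin.cases 1 (fun b => algebraMap _ _ (X b : MvPolynomial (Fin n) ℂ)) j

theorem gp_zero (n : ℕ) : gp n 0 = 1 := rfl

theorem gp_succ (n : ℕ) (b : Fin n) :
    gp n b.succ = algebraMap (MvPolynomial (Fin n) ℂ) (Rf n) (X b) := rfl

theorem ae_gp (n : ℕ) (p : MvPolynomial (Fin n) ℂ) :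
    aeval (fun b : Fin n => gp n b.succ) p = algebraMap (MvPolynomial (Fin n) ℂ) (Rf n) p := by
  have h1 : aeval (fun b : Fin n => gp n b.succ) =
      IsScalarTower.toAlgHom ℂ (MvPolynomial (Fin n) ℂ) (Rf n) := by
    apply MvPolynomial.algHom_ext
    intro b
    rw [aeval_X, gp_succ]
    rfl
  rw [h1]
  rfl

theorem gp_ind (n : ℕ) : AlgebraicIndependent ℂ fun b : Fin n => gp n b.succ := by
  intro p q h
  have h' : aeval (fun b : Fin n => gp n b.succ) p = aeval (fun b : Fin n => gp n b.succ) q := h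
  rw [ae_gp, ae_gp] at h'
  exact IsFractionRing.injective _ _ h'

theorem gp_bas (n : ℕ) : IsTranscendenceBasis ℂ fun b : Fin n => gp n b.succ := by
  rw [(gp_ind n).isTranscendenceBasis_iff_isAlgebraic]
  refine ⟨fun z => ?_⟩
  obtain ⟨p, q, hq, rfl⟩ := IsFractionRing.div_surjective (A := MvPolynomial (Fin n) ℂ) z
  have h1 : ∀ p : MvPolynomial (Fin n) ℂ, IsAlgebraic
      (Algebra.adjoin ℂ (Set.range fun b : Fin n => gp n b.succ))
      (algebraMap (MvPolynomial (Fin n) ℂ) (Rf n) p) := by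
    intro p
    have h2 : algebraMap (MvPolynomial (Fin n) ℂ) (Rf n) p ∈
        Algebra.adjoin ℂ (Set.range fun b : Fin n => gp n b.succ) := by
      rw [Algebra.adjoin_range_eq_range_aeval]
      exact ⟨p, ae_gp n p⟩
    exact isAlgebraic_algebraMap (⟨_, h2⟩ : Algebra.adjoin ℂ (Set.range fun b : Fin n =>
      gp n b.succ))
  rw [div_eq_mul_inv]
  exact (h1 p).mul (h1 q).inv

theorem gp_tr (n : ℕ) : Algebra.trdeg ℂ (Rf n) = n := trdeg_of_basis (gp_bas n)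

theorem gp_top (n : ℕ) :
    IntermediateField.adjoin ℂ (Set.range fun b : Fin n => gp n b.succ) = ⊤ := by
  rw [eq_top_iff]
  intro z _
  obtain ⟨p, q, hq, rfl⟩ := IsFractionRing.div_surjective (A := MvPolynomial (Fin n) ℂ) z
  have h1 : ∀ p : MvPolynomial (Fin n) ℂ, algebraMap (MvPolynomial (Fin n) ℂ) (Rf n) p ∈
      IntermediateField.adjoin ℂ (Set.range fun b : Fin n => gp n b.succ) := by
    intro p
    apply IntermediateField.algebra_adjoin_le_adjoin ℂ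
    rw [Algebra.adjoin_range_eq_range_aeval]
    exact ⟨p, ae_gp n p⟩
  exact div_mem (h1 p) (h1 q)

theorem gp_fin (n : ℕ) (y : Fin n → Rf n) (hy : IsTranscendenceBasis ℂ y) :
    FiniteDimensional (IntermediateField.adjoin ℂ (Set.range y)) (Rf n) := by
  refine Pool.Agent.TH756.PN.fin_all (Z := fun b : Fin n => gp n b.succ) ?_ hy
  rw [gp_top]
  exact Module.Finite.of_surjective
    (Algebra.linearMap (⊤ : IntermediateField ℂ (Rf n)) (Rf n)) fun z => ⟨⟨z, trivial⟩, rfl⟩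

end gen

section up

variable {n : ℕ} {K : Type} [Field K] [Algebra ℂ K]

/-- **The generic point.** -/
theorem logC_gen {F : Fin (n + 1) → MvPolynomial (Fin (n + 1)) ℂ} {dF : Fin (n + 1) → ℕ}
    (hh : ∀ k, (F k).IsHomogeneous (dF k)) (hlc : Cv.LogC F dF (gp n)) {x : Fin (n + 1) → K}
    (hx0 : x 0 ≠ 0) (hbas : IsTranscendenceBasis ℂ fun b : Fin n => x b.succ / x 0)
    (hfd : FiniteDimensional
      (IntermediateField.adjoin ℂ (Set.range fun b : Fin n => x b.succ / x 0)) K) :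
    Cv.LogC F dF x := by
  classical
  obtain ⟨φ, hφ⟩ : ∃ φ : Rf n →ₐ[ℂ] K, ∀ b : Fin n, φ (gp n b.succ) = x b.succ / x 0 := by
    refine ⟨IsFractionRing.liftAlgHom (g := aeval fun b : Fin n => x b.succ / x 0) hbas.1,
      fun b => ?_⟩
    rw [gp_succ, IsFractionRing.liftAlgHom_apply, IsFractionRing.lift_algebraMap]
    exact aeval_X _ _
  letI : Algebra (Rf n) K := φ.toRingHom.toAlgebra
  have hmap : ∀ z, algebraMap (Rf n) K z = φ z := fun z => rfl
  haveI : IsScalarTower ℂ (Rf n) K := IsScalarTower.of_algebraMap_eq fun c => (φ.commutes c).symm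
  haveI : FiniteDimensional (Rf n) K := by
    obtain ⟨E, hE⟩ : ∃ E, E = IntermediateField.adjoin ℂ
      (Set.range fun b : Fin n => x b.succ / x 0) := ⟨_, rfl⟩
    rw [← hE] at hfd
    obtain ⟨S, hS⟩ := (Module.finite_def.1 hfd : (⊤ : Submodule E K).FG)
    have hEφ : E ≤ φ.fieldRange := by
      rw [hE, IntermediateField.adjoin_le_iff]
      rintro _ ⟨b, rfl⟩
      exact ⟨_, hφ b⟩
    refine Module.finite_def.2 ⟨S, ?_⟩
    rw [eq_top_iff]
    intro z _
    have hz : z ∈ Submodule.span E (S : Set K) := by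
      rw [hS]
      trivial
    induction hz using Submodule.span_induction with
    | mem x hx => exact Submodule.subset_span hx
    | zero => exact Submodule.zero_mem _
    | add x y _ _ hx hy => exact Submodule.add_mem _ (hx trivial) (hy trivial)
    | smul a x _ hx =>
      obtain ⟨a', ha'⟩ := hEφ a.2
      have h1 : a • x = a' • x := by
        rw [Algebra.smul_def, Algebra.smul_def]
        congr 1
        exact ha'.symm
      rw [h1]
      exact Submodule.smul_mem _ _ (hx trivial)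
  have h1 := logC_up (K := K) hlc (gp_tr n) (gp_fin n)
  have h2 : Compat F F dF (fun j => algebraMap (Rf n) K (gp n j)) x (x 0)⁻¹ := by
    refine compat_scale hh (inv_ne_zero hx0) fun l => ?_
    rw [hmap]
    refine Fin.cases ?_ (fun b => ?_) l
    · rw [gp_zero, map_one, inv_mul_cancel₀ hx0]
    · rw [hφ, div_eq_inv_mul]
  exact h2.logC h1

/-- the form of degree `n + 1` and the normal crossings -/
theorem logC_snc {F : Fin (n + 1) → MvPolynomial (Fin (n + 1)) ℂ} {dF : Fin (n + 1) → ℕ}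
    (hh : ∀ k, (F k).IsHomogeneous (dF k)) (hs : Pool.Agent.Y169.TH.Snc F)
    (x : Fin (n + 1) → K) : Cv.LogC F dF x := by
  intro P hP α v hdat D hD
  exact Pool.Agent.Y169.TH.bw_log_ord hs hh hdat hD

end up

section dat

variable {n : ℕ} {L : Type} [Field L] [Algebra ℂ L]

/-- the minimal order -/
noncomputable def mo (x : Fin (n + 1) → L) (P : Place ℂ L) : ℤ :=
  Finset.univ.inf' Finset.univ_nonempty fun l => P.ord (x l)

/-- the multiplicities -/
noncomputable def mu (F : Fin (n + 1) → MvPolynomial (Fin (n + 1)) ℂ) (d : Fin (n + 1) → ℕ)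
    (x : Fin (n + 1) → L) (P : Place ℂ L) (k : Fin (n + 1)) : ℕ :=
  (P.ord (aeval x (F k)) - d k * mo x P).toNat

/-- the form of degree `n + 1` -/
noncomputable def Om (x : Fin (n + 1) → L) (D : Fin n → Derivation ℂ L L) : L :=
  (Matrix.of fun i j => (Fin.cases (x j) (fun l => D l (x j)) i : L)).det

/-- the logarithmic order -/
noncomputable def lo (F : Fin (n + 1) → MvPolynomial (Fin (n + 1)) ℂ) (d : Fin (n + 1) → ℕ)
    (x : Fin (n + 1) → L) (P : Place ℂ L) (D : Fin n → Derivation ℂ L L) : ℤ :=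
  P.ord (Om x D) - (n + 1) * mo x P - ∑ k, (mu F d x P k : ℤ)

/-- lc places -/
def Lp (F : Fin (n + 1) → MvPolynomial (Fin (n + 1)) ℂ) (d : Fin (n + 1) → ℕ)
    (x : Fin (n + 1) → L) (P : Place ℂ L) : Prop :=
  ∃ D : Fin n → Derivation ℂ L L, (∀ c, DerReg P (D c)) ∧ Om x D ≠ 0 ∧ lo F d x P D < 0

/-- the boundary -/
def Bd (F : Fin (n + 1) → MvPolynomial (Fin (n + 1)) ℂ) (d : Fin (n + 1) → ℕ)
    (x : Fin (n + 1) → L) (A : (Fin (n + 1) → ℕ) → ℚ) (δ : Place ℂ L → ℚ) : Prop :=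
  ∀ P : Place ℂ L, Divisorial n P → 0 ≤ δ P ∧ δ P ≤ 1 - A (mu F d x P) ∧
    (Lp F d x P → δ P = 1 - A (mu F d x P))

variable {F : Fin (n + 1) → MvPolynomial (Fin (n + 1)) ℂ} {d : Fin (n + 1) → ℕ}
  {x : Fin (n + 1) → L} {P : Place ℂ L} {α : ℤ} {v : Fin (n + 1) → ℕ}

theorem mo_eq (h : Dat P F d x α v) : mo x P = α := by
  obtain ⟨j, hj⟩ := h.ha2
  refine le_antisymm ?_ ?_
  · rw [← hj]
    exact Finset.inf'_le (fun l => P.ord (x l)) (Finset.mem_univ j)
  · exact Finset.le_inf' _ _ fun l _ => h.ha1 l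

theorem mu_eq (h : Dat P F d x α v) : mu F d x P = v := by
  funext k
  unfold mu
  rw [mo_eq h, h.hv]
  omega

theorem lo_ge (h : Dat P F d x α v) (D : Fin n → Derivation ℂ L L) :
    Ge P (((n : ℤ) + 1) * α + ∑ k, (v k : ℤ)) (bw D x) ↔ Om x D = 0 ∨ 0 ≤ lo F d x P D := by
  unfold lo
  rw [mo_eq h, mu_eq h]
  change (Om x D = 0 ∨ _ ≤ P.ord (Om x D)) ↔ _
  refine or_congr Iff.rfl ?_
  constructor <;> intro h1 <;> linarith

theorem logC_of (hlc : ∀ P : Place ℂ L, Divisorial n P → ∀ D : Fin n → Derivation ℂ L L,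
    (∀ c, DerLog P (D c)) → Om x D = 0 ∨ 0 ≤ lo F d x P D) : Cv.LogC F d x := by
  intro P hP α v hdat D hD
  rw [lo_ge hdat]
  exact hlc P hP D hD

theorem logC_to (hdat : ∀ P : Place ℂ L, Divisorial n P → ∃ α v, Dat P F d x α v)
    (hlc : Cv.LogC F d x) (P : Place ℂ L) (hP : Divisorial n P) (D : Fin n → Derivation ℂ L L)
    (hD : ∀ c, DerLog P (D c)) : Om x D = 0 ∨ 0 ≤ lo F d x P D := by
  obtain ⟨α, v, h⟩ := hdat P hP
  rw [← lo_ge h]
  exact hlc P hP α v h D hD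

variable {A : (Fin (n + 1) → ℕ) → ℚ}

variable {δ : Place ℂ L → ℚ}

theorem bdU_of (hA : ∀ v, 0 ≤ A v) (hA0 : A 0 = 1) (hδ : Bd F d x A δ) :
    BdU F d x (fun P => (δ P : ℝ)) A := by
  refine ⟨fun P hP α h => ?_, fun P hP α v h hv => ?_, hA⟩
  · have h1 := (hδ P hP).2.1
    rw [mu_eq h, hA0] at h1
    have h2 : δ P ≤ 0 := by linarith
    exact_mod_cast h2
  · have h1 := (hδ P hP).2.1
    rw [mu_eq h] at h1
    exact_mod_cast h1

theorem bdL_of (hδ : Bd F d x A δ) : BdL F d x (fun P => (δ P : ℝ)) A := by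
  refine ⟨fun P hP => ?_, fun P hP α v h ⟨D, hD, h1⟩ => ?_⟩
  · exact_mod_cast (hδ P hP).1
  · rw [lo_ge h] at h1
    push Not at h1
    have h2 := (hδ P hP).2.2 ⟨D, hD, h1.1, h1.2⟩
    rw [mu_eq h] at h2
    rw [h2]
    push_cast
    exact le_rfl

end dat

section sections

variable {N : ℕ} {K : Type} [Field K] [Algebra ℂ K] {δ : Place ℂ K → ℚ}

/-- a section of `m (K + Δ) + j A` -/
def QSec (N : ℕ) (δ : Place ℂ K → ℚ) (S : Finset K) (m j : ℕ)
    (ω : (Fin N → Derivation ℂ K K) → K) : Prop :=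
  IsPluri m ω ∧ ∀ P : Place ℂ K, Divisorial N P → ∀ D : Fin N → Derivation ℂ K K,
    (∀ c, DerReg P (D c)) → ω D = 0 ∨
      ∃ s ∈ S, s ≠ 0 ∧ (j : ℚ) * P.ord s - m * δ P ≤ P.ord (ω D)

theorem qsec_iff {S : Finset K} {m j : ℕ} {ω : (Fin N → Derivation ℂ K K) → K} :
    QSec N δ S m j ω ↔ BSec N (fun P => (δ P : ℝ)) S m j ω := by
  unfold QSec BSec
  refine and_congr Iff.rfl ?_
  refine forall_congr' fun P => forall_congr' fun _ => forall_congr' fun D =>
    forall_congr' fun _ => or_congr Iff.rfl ?_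
  refine exists_congr fun s => and_congr Iff.rfl (and_congr Iff.rfl ?_)
  dsimp only
  constructor
  · intro h
    exact_mod_cast h
  · intro h
    exact_mod_cast h

/-- `κ (K + Δ) ≥ h` -/
def QKod (N : ℕ) (K : Type) [Field K] [Algebra ℂ K] (δ : Place ℂ K → ℚ) (h : ℕ) : Prop :=
  ∃ m : ℕ, 0 < m ∧ ∃ ω : Fin (h + 1) → (Fin N → Derivation ℂ K K) → K,
    (∀ b, QSec N δ {1} m 1 (ω b)) ∧
    ∃ D, ω 0 D ≠ 0 ∧ AlgebraicIndependent ℂ (fun b : Fin h => ω b.succ D / ω 0 D)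

/-- `ν (K + Δ) ≤ h` -/
def QNum (N : ℕ) (K : Type) [Field K] [Algebra ℂ K] (δ : Place ℂ K → ℚ) (h : ℕ) : Prop :=
  ∀ S : Finset K, ∃ C : ℕ, ∀ m M : ℕ, 1 ≤ m →
    (∃ ω : Fin M → (Fin N → Derivation ℂ K K) → K, LinearIndependent ℂ ω ∧
      ∀ l, QSec N δ S m 1 (ω l)) → M ≤ C * m ^ h

/-- pseudo-effective -/
def QPsef (N : ℕ) (K : Type) [Field K] [Algebra ℂ K] (δ : Place ℂ K → ℚ) : Prop :=
  ∃ S : Finset K, ∀ M : ℕ, ∃ j : ℕ, 1 ≤ j ∧ ∃ ω : (Fin N → Derivation ℂ K K) → K, ω ≠ 0 ∧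
    QSec N δ S (j * M) j ω

theorem qkod_iff {h : ℕ} : QKod N K δ h ↔ BKod N K (fun P => (δ P : ℝ)) h := by
  unfold QKod BKod
  simp only [qsec_iff]

theorem qnum_iff {h : ℕ} : QNum N K δ h ↔ BNum N K (fun P => (δ P : ℝ)) h := by
  unfold QNum BNum
  simp only [qsec_iff]

theorem qpsef_iff : QPsef N K δ ↔ BPsef N K (fun P => (δ P : ℝ)) := by
  unfold QPsef BPsef
  simp only [qsec_iff]

end sections

section final

/-- the data -/
theorem exists_dat_of {n : ℕ} {L : Type} [Field L] [Algebra ℂ L]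
    {F : Fin (n + 1) → MvPolynomial (Fin (n + 1)) ℂ} {dF : Fin (n + 1) → ℕ}
    (hh : ∀ k, (F k).IsHomogeneous (dF k)) {x : Fin (n + 1) → L} (hx : ∀ l, x l ≠ 0)
    (hFx : ∀ k, aeval x (F k) ≠ 0) (P : Place ℂ L) : ∃ α v, Dat P F dF x α v := by
  obtain ⟨l, hl⟩ := Finite.exists_min fun l => P.ord (x l)
  have hne := hx l
  obtain ⟨y, hy⟩ : ∃ y : Fin (n + 1) → L, y = fun b => x b / x l := ⟨_, rfl⟩
  have hyr : ∀ b, P.Reg (y b) := by
    intro b
    right
    rw [hy]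
    dsimp only
    rw [P.ord_div (hx b) hne]
    linarith [hl b]
  have hF : ∀ k, aeval x (F k) = x l ^ dF k * aeval y (F k) := by
    intro k
    rw [← aeval_smul_form (hh k)]
    congr 2
    funext b
    rw [hy, mul_div_cancel₀ _ hne]
  have hFy : ∀ k, aeval y (F k) ≠ 0 := by
    intro k h0
    apply hFx k
    rw [hF, h0, mul_zero]
  refine ⟨P.ord (x l), fun k => (P.ord (aeval y (F k))).toNat, hx, hl, ⟨l, rfl⟩,
    hFx, fun k => ?_⟩
  have h1 := (reg_aeval hyr (F k)).resolve_left (hFy k)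
  rw [Int.toNat_of_nonneg h1, hF, P.ord_mul (pow_ne_zero _ hne) (hFy k), P.ord_pow]

theorem gp_ne {n : ℕ} (l : Fin (n + 1)) : gp n l ≠ 0 := by
  refine Fin.cases ?_ (fun b => ?_) l
  · rw [gp_zero]
    exact one_ne_zero
  · rw [gp_succ]
    intro h0
    have h1 : (X b : MvPolynomial (Fin n) ℂ) = 0 :=
      (injective_iff_map_eq_zero _).1 (IsFractionRing.injective _ (Rf n)) _ h0
    exact X_ne_zero b h1

theorem gp_form {n : ℕ} {F : MvPolynomial (Fin (n + 1)) ℂ} {D : ℕ} (hh : F.IsHomogeneous D)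
    (hF : F ≠ 0) : aeval (gp n) F ≠ 0 := by
  rw [← Pool.Agent.Y169.TH.aeval_deh (gp_zero n), ae_gp]
  intro h0
  exact Pool.Agent.Y169.TH.deh_ne hh hF
    ((injective_iff_map_eq_zero _).1 (IsFractionRing.injective _ (Rf n)) _ h0)

/-- normal crossings -/
theorem snc_final {n : ℕ} {F : Fin (n + 1) → MvPolynomial (Fin (n + 1)) ℂ} {d : Fin (n + 1) → ℕ}
    (hF : ∀ k, (F k).IsHomogeneous (d k)) (hs : Pool.Agent.Y169.TH.Snc F) :
    (∀ k, F k ≠ 0) ∧ Ncz F ∧ ∀ P : Place ℂ (Rf n), Divisorial n P →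
      ∀ D : Fin n → Derivation ℂ (Rf n) (Rf n), (∀ c, DerLog P (D c)) →
      Om (gp n) D = 0 ∨ 0 ≤ lo F d (gp n) P D :=
  ⟨fun k => Pool.Agent.Y169.TH.snc_ne hs k, fun _ hx => Pool.Agent.Y169.TH.no_common hs hF hx,
    logC_to (fun P _ => exists_dat_of hF gp_ne
      (fun k => gp_form (hF k) (Pool.Agent.Y169.TH.snc_ne hs k)) P) (logC_snc hF hs _)⟩

/-- **The final form.** -/
theorem final (n R : ℕ) (hn : 1 ≤ n) (d : Fin (n + 1) → ℕ) (hd : ∀ k, 1 ≤ d k)
    (F : Fin (n + 1) → MvPolynomial (Fin (n + 1)) ℂ) (hF : ∀ k, (F k).IsHomogeneous (d k))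
    (hF0 : ∀ k, F k ≠ 0) (hF1 : Ncz F)
    (hlc : ∀ P : Place ℂ (Rf n), Divisorial n P →
      ∀ D : Fin n → Derivation ℂ (Rf n) (Rf n), (∀ c, DerLog P (D c)) →
      Om (gp n) D = 0 ∨ 0 ≤ lo F d (gp n) P D)
    (m : Fin R → ℕ) (hm : ∀ j, 1 ≤ m j) (a : Fin R → Fin (n + 1) → ℕ)
    (hdiv : ∀ j, m j ∣ ∑ k, a j k * d k)
    (K : Type) [Field K] [Algebra ℂ K] (x : Fin (n + 1) → K) (hx0 : x 0 ≠ 0)
    (hbas : IsTranscendenceBasis ℂ fun b : Fin n => x b.succ / x 0) (z : Fin R → K)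
    (hz : ∀ j, z j ^ m j = ∏ k, (aeval x (F k) / x 0 ^ d k) ^ a j k)
    (hgen : IntermediateField.adjoin ℂ
      (Set.range (fun b : Fin n => x b.succ / x 0) ∪ Set.range z) = ⊤)
    (A : (Fin (n + 1) → ℕ) → ℚ) (hA : ∀ v, 0 ≤ A v) (hA0 : A 0 = 1) (hfin : (Set.range A).Finite)
    (hsub : ∀ v, Adm m a v → ∀ t : ℕ, 1 ≤ t → A (t • v) ≤ t * A v)
    (δ : Place ℂ K → ℚ) (hδ : Bd F d x A δ) :
    (QPsef n K δ ↔ (PiB m a d A).Nonempty) ∧
    (QKod n K δ 0 ↔ (PiB m a d A).Nonempty) ∧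
    ((PiB m a d A).Nonempty →
      QKod n K δ (Module.finrank ℚ (vectorSpan ℚ (PiB m a d A))) ∧
      QNum n K δ (Module.finrank ℚ (vectorSpan ℚ (PiB m a d A)))) := by
  obtain ⟨e, rfl⟩ : ∃ e, n = e + 1 := ⟨n - 1, by omega⟩
  obtain ⟨Φ, -, C, -⟩ := exists_cv hx0 hbas hd hF hF0 hF1 hm hz hdiv hgen
  rw [qpsef_iff, qkod_iff, qkod_iff, qnum_iff]
  exact main hx0 hbas hd hF hF0 hF1 hm hz hdiv hgen
    (logC_gen hF (logC_of hlc) hx0 hbas (C.fin_all' _ hbas)) (bdU_of hA hA0 hδ) (bdL_of hδ)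
    (fun v hv t ht => hsub v hv t ht) hfin

end final

end Pool.Agent.K3h47.NC
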