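import Pool.Agent.K3h47.NC.Cnt
import Pool.Agent.Y169.TH.Kod

/-!
The Kodaira dimension: sections from the points of the polyhedron.
-/

set_option autoImplicit false
set_option linter.overlappingInstances false
set_option linter.unusedSectionVars false
set_option maxHeartbeats 400000

open FF MvPolynomial Pool.Agent.W603.LV Pool.Agent.W602.GT Pool.Agent.W602.Cov
open Pool.Agent.W602.Cov.G Pool.Agent.TH152.AC Pool.Agent.TH122.AB Pool.Agent.Y169.CH
open Pool.Agent.TH756.PN Pool.Agent.W619.PQ Pool.Agent.W619.TW Pool.Agent.W619.Y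
open Pool.Agent.Y169.TH (Dat laurent_ind exists_den prod_zpow_sum)

namespace Pool.Agent.K3h47.NC

/-- the lower bounds for the coefficients of the boundary: at the places where the form has a pole
the coefficient is at least `1 - A v` -/
structure BdL {n : ℕ} {K : Type} [Field K] [Algebra ℂ K]
    (F : Fin (n + 1) → MvPolynomial (Fin (n + 1)) ℂ) (dF : Fin (n + 1) → ℕ)
    (x : Fin (n + 1) → K) (δ : Place ℂ K → ℝ) (A : (Fin (n + 1) → ℕ) → ℚ) : Prop where
  nonneg : ∀ P : Place ℂ K, Divisorial n P → 0 ≤ δ P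
  pole : ∀ P : Place ℂ K, Divisorial n P → ∀ (α : ℤ) (v : Fin (n + 1) → ℕ), Dat P F dF x α v →
    (∃ D : Fin n → Derivation ℂ K K, (∀ l, DerReg P (D l)) ∧
      ¬ Ge P (((n : ℤ) + 1) * α + ∑ k, (v k : ℤ)) (bw D x)) → 1 - A v ≤ δ P

/-- a section of `m (K + Δ) + j A` -/
def BSec {K : Type} [Field K] [Algebra ℂ K] (N : ℕ) (δ : Place ℂ K → ℝ) (S : Finset K) (m j : ℕ)
    (ω : (Fin N → Derivation ℂ K K) → K) : Prop :=
  IsPluri m ω ∧ ∀ P : Place ℂ K, Divisorial N P → ∀ D : Fin N → Derivation ℂ K K,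
    (∀ c, DerReg P (D c)) → ω D = 0 ∨ ∃ s ∈ S, s ≠ 0 ∧
      (j : ℝ) * P.ord s - m * δ P ≤ P.ord (ω D)

/-- `κ (K + Δ) ≥ h` -/
def BKod (N : ℕ) (K : Type) [Field K] [Algebra ℂ K] (δ : Place ℂ K → ℝ) (h : ℕ) : Prop :=
  ∃ m : ℕ, 0 < m ∧ ∃ ω : Fin (h + 1) → (Fin N → Derivation ℂ K K) → K,
    (∀ b, BSec N δ {1} m 1 (ω b)) ∧
    ∃ D, ω 0 D ≠ 0 ∧ AlgebraicIndependent ℂ (fun b : Fin h => ω b.succ D / ω 0 D)

/-- `ν (K + Δ) ≤ h` -/
def BNum (N : ℕ) (K : Type) [Field K] [Algebra ℂ K] (δ : Place ℂ K → ℝ) (h : ℕ) : Prop :=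
  ∀ S : Finset K, ∃ C : ℕ, ∀ m M : ℕ, 1 ≤ m →
    (∃ ω : Fin M → (Fin N → Derivation ℂ K K) → K, LinearIndependent ℂ ω ∧
      ∀ l, BSec N δ S m 1 (ω l)) → M ≤ C * m ^ h

/-- pseudo-effective -/
def BPsef (N : ℕ) (K : Type) [Field K] [Algebra ℂ K] (δ : Place ℂ K → ℝ) : Prop :=
  ∃ S : Finset K, ∀ M : ℕ, ∃ j : ℕ, 1 ≤ j ∧ ∃ ω : (Fin N → Derivation ℂ K K) → K, ω ≠ 0 ∧
    BSec N δ S (j * M) j ω

section

variable {N : ℕ} {K : Type} [Field K] [Algebra ℂ K] {δ : Place ℂ K → ℝ}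

theorem bsec_sec {S : Finset K} {m j : ℕ} {ω : (Fin N → Derivation ℂ K K) → K}
    (h : BSec N δ S m j ω) : SecP N Set.univ δ (pw S j) m ω := by
  refine ⟨h.1, fun P _ hP D hD => ?_⟩
  refine (h.2 P hP D hD).imp id ?_
  rintro ⟨s, hs, hs0, hle⟩
  refine ⟨s ^ j, mem_pw.2 ⟨s, hs, rfl⟩, pow_ne_zero _ hs0, ?_⟩
  rw [P.ord_pow]
  push_cast
  exact hle

theorem bsec_one {S : Finset K} {m : ℕ} {ω : (Fin N → Derivation ℂ K K) → K}
    (h : BSec N δ S m 1 ω) : SecP N Set.univ δ S m ω := by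
  refine ⟨h.1, fun P _ hP D hD => ?_⟩
  refine (h.2 P hP D hD).imp id ?_
  rintro ⟨s, hs, hs0, hle⟩
  refine ⟨s, hs, hs0, ?_⟩
  simpa using hle

theorem psef_of_bkod (hδ : ∀ P, Divisorial N P → 0 ≤ δ P) {h : ℕ} (hk : BKod N K δ h) :
    BPsef N K δ := by
  classical
  obtain ⟨m, hm, ω, hω, D, hD, -⟩ := hk
  refine ⟨{1}, fun M => ⟨m, hm, fun D => ω 0 D ^ M, ?_, ?_, ?_⟩⟩
  · intro h0
    exact pow_ne_zero M hD (congrFun h0 D)
  · intro A D
    have h1 := (hω 0).1 A D
    dsimp only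
    rw [h1, mul_pow, ← pow_mul]
  · intro P hP D hD
    have hδP := hδ P hP
    by_cases h0 : ω 0 D = 0
    · by_cases hM : M = 0
      · right
        refine ⟨1, by simp, one_ne_zero, ?_⟩
        dsimp only
        rw [hM, pow_zero, P.ord_one]
        simp
      · left
        dsimp only
        rw [h0, zero_pow hM]
    · right
      obtain ⟨s, hs, -, hle⟩ := ((hω 0).2 P hP D hD).resolve_left h0
      rw [Finset.mem_singleton] at hs
      subst hs
      refine ⟨1, by simp, one_ne_zero, ?_⟩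
      dsimp only
      rw [P.ord_pow, P.ord_one]
      rw [P.ord_one] at hle
      push_cast at hle ⊢
      have h1 : (M : ℝ) * (1 * 0 - m * δ P) ≤ M * P.ord (ω 0 D) :=
        mul_le_mul_of_nonneg_left hle (by positivity)
      linarith

end

section frame

variable {n : ℕ} {K : Type} [Field K] [Algebra ℂ K]

theorem over_self (P : Place ℂ K) : Over P P 1 :=
  ⟨Nat.one_pos, fun x => by simp⟩

/-- a frame and its logarithmic frame -/
theorem exists_lframe (htr : Algebra.trdeg ℂ K = n)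
    (hfd : ∀ y : Fin n → K, IsTranscendenceBasis ℂ y →
      FiniteDimensional (IntermediateField.adjoin ℂ (Set.range y)) K)
    {P : Place ℂ K} (hP : Divisorial n P) :
    ∃ (y : Fin n → K) (E : Fin n → Derivation ℂ K K) (i0 : Fin n)
      (dd : Fin n → Derivation ℂ K K), IsTranscendenceBasis ℂ y ∧
      (∀ i j, E i (y j) = if i = j then 1 else 0) ∧ P.ord (y i0) = 1 ∧ (∀ i, P.Reg (y i)) ∧
      (∀ i, DerReg P (E i)) ∧ (∀ i z, P.Reg (dd i z / z)) ∧
      ∀ x : Fin (n + 1) → K, bw dd x = y i0 * bw E x := by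
  classical
  obtain ⟨y, E, i0, hy, hEy, hi0, hyreg, hpres⟩ := pFRAME ℂ K n htr hfd P hP
  have hpi : y i0 ≠ 0 := by
    intro h0
    rw [h0, P.ord_zero] at hi0
    omega
  refine ⟨y, E, i0, fun c => ∑ b, (Matrix.diagonal fun c => if c = i0 then y i0 else 1) c b • E b,
    hy, hEy, hi0, hyreg, hpres, fun c => ?_, fun x => ?_⟩
  · have h1 : (∑ b, (Matrix.diagonal fun c => if c = i0 then y i0 else 1) c b • E b) =
        (if c = i0 then y i0 else 1) • E c := by
      rw [Finset.sum_eq_single c]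
      · rw [Matrix.diagonal_apply_eq]
      · intro b _ hb
        rw [Matrix.diagonal_apply_ne _ (Ne.symm hb), zero_smul]
      · intro h
        exact absurd (Finset.mem_univ _) h
    dsimp only
    rw [h1]
    have hreg1 : P.Reg (if c = i0 then y i0 else (1 : K)) := by
      split_ifs
      · exact hyreg i0
      · right
        rw [P.ord_one]
    refine log_of (over_self P) hi0 (fun x hx => ?_) ?_
    · rw [Derivation.smul_apply, smul_eq_mul]
      exact P.reg_mul hreg1 (hpres c x hx)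
    · change P.Reg (((if c = i0 then y i0 else 1) • E c) (y i0) / y i0)
      rw [Derivation.smul_apply, smul_eq_mul, hEy]
      by_cases hc : c = i0
      · rw [if_pos hc, if_pos hc, mul_one, div_self hpi]
        right
        rw [P.ord_one]
      · rw [if_neg hc, if_neg hc, mul_zero, zero_div]
        exact P.reg_zero
  · rw [(bwa n K).2.1, Matrix.det_diagonal, Finset.prod_ite_eq']
    simp

/-- the order on regular vector fields -/
theorem lc_reg {F : Fin (n + 1) → MvPolynomial (Fin (n + 1)) ℂ} {dF : Fin (n + 1) → ℕ}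
    {x : Fin (n + 1) → K} (hlc : Cv.LogC F dF x) (htr : Algebra.trdeg ℂ K = n)
    (hfd : ∀ y : Fin n → K, IsTranscendenceBasis ℂ y →
      FiniteDimensional (IntermediateField.adjoin ℂ (Set.range y)) K)
    {P : Place ℂ K} (hP : Divisorial n P) {α : ℤ} {v : Fin (n + 1) → ℕ}
    (h : Dat P F dF x α v) {D : Fin n → Derivation ℂ K K} (hD : ∀ l, DerReg P (D l)) :
    Ge P (((n : ℤ) + 1) * α + ∑ k, (v k : ℤ) - 1) (bw D x) := by
  classical
  obtain ⟨y, E, i0, dd, hy, hEy, hi0, hyreg, hE, hdd, hbw⟩ := exists_lframe htr hfd hP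
  have hpi : y i0 ≠ 0 := by
    intro h0
    rw [h0, P.ord_zero] at hi0
    omega
  have h1 := hlc P hP α v h dd hdd
  rw [hbw] at h1
  have h2 : Ge P (((n : ℤ) + 1) * α + ∑ k, (v k : ℤ) - 1) (bw E x) := by
    rcases h1 with h1 | h1
    · exact Or.inl ((mul_eq_zero.1 h1).resolve_left hpi)
    · by_cases h0 : bw E x = 0
      · exact Or.inl h0
      · right
        rw [P.ord_mul hpi h0, hi0] at h1
        linarith
  have hDE : D = fun i => ∑ j, (Matrix.of fun i j => D i (y j)) i j • E j := by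
    funext i
    apply der_ext' hy
    intro j
    rw [sum_der, Finset.sum_eq_single j]
    · rw [hEy, if_pos rfl, mul_one]
      rfl
    · intro b _ hb
      rw [hEy, if_neg hb, mul_zero]
    · intro hj
      exact absurd (Finset.mem_univ _) hj
  have h3 : Ge P 0 (Matrix.of fun i j => D i (y j)).det :=
    Pool.Agent.W619.PQ.ge_det P _ fun i j => hD i _ (hyreg j)
  rw [hDE, (bwa n K).2.1]
  simpa using h3.mul h2

/-- no multiplicities, no pole -/
theorem bw_zero_ord {F : Fin (n + 1) → MvPolynomial (Fin (n + 1)) ℂ} {dF : Fin (n + 1) → ℕ}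
    {x : Fin (n + 1) → K} {P : Place ℂ K} {α : ℤ} (h : Dat P F dF x α 0)
    {D : Fin n → Derivation ℂ K K} (hD : ∀ l, DerReg P (D l)) :
    Ge P (((n : ℤ) + 1) * α + ∑ k, ((0 : Fin (n + 1) → ℕ) k : ℤ)) (bw D x) := by
  classical
  obtain ⟨j, hj⟩ := h.ha2
  obtain ⟨y, hy⟩ : ∃ y : Fin (n + 1) → K, y = fun l => x l / x j := ⟨_, rfl⟩
  have hyreg : ∀ b, P.Reg (y b) := by
    intro b
    right
    rw [hy]
    dsimp only
    rw [P.ord_div (h.hx b) (h.hx j), hj]
    linarith [h.ha1 b]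
  have h1 : Ge P 0 (bw D y) := by
    refine Pool.Agent.W619.PQ.ge_det P _ fun i b => ?_
    refine Fin.cases ?_ (fun l => ?_) i
    · exact hyreg b
    · exact hD l _ (hyreg b)
  have h2 : bw D x = x j ^ (n + 1) * bw D y := by
    rw [← (bwa n K).1 D (x j) y]
    congr 1
    funext l
    rw [hy, mul_div_cancel₀ _ (h.hx j)]
  rw [h2]
  have h3 : Ge P (((n : ℤ) + 1) * α) (x j ^ (n + 1)) := by
    right
    rw [P.ord_pow, hj]
    push_cast
    exact le_rfl
  refine (h3.mul h1).mono (le_of_eq ?_)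
  simp

end frame

namespace Cv

variable {d : ℕ} {Φ : Arr (d + 1)} {K : Type} [Field K] [Algebra ℂ K] {R : ℕ} (C : Cv Φ K R)

/-- **The Kodaira dimension.** -/
theorem kod_ge {δ : Place ℂ K → ℝ} {Aw : (Fin (d + 2) → ℕ) → ℚ}
    (hlc : LogC Φ.F Φ.dF C.x) (hBL : BdL Φ.F Φ.dF C.x δ Aw) (hA0 : ∀ v, 0 ≤ Aw v)
    (hfin : (Set.range Aw).Finite) (hne : (PiB C.M C.a Φ.dF Aw).Nonempty) {h : ℕ}
    (hh : Module.finrank ℚ (vectorSpan ℚ (PiB C.M C.a Φ.dF Aw)) = h) :
    BKod (d + 1) K δ h := by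
  classical
  have htr := trdeg_of_basis C.u_bas
  have hPi := PiB_eq (M := C.M) (a := C.a) (dF := Φ.dF) C.hM (by omega) hA0
  have : Finite (Red C.M C.a Aw) := (idx_finite hfin).to_subtype
  have : Fintype (Red C.M C.a Aw) := Fintype.ofFinite _
  obtain ⟨y0, y, hy0, hy, hlin⟩ : ∃ (y0 : Fin (d + 2) → ℚ) (y : Fin h → Fin (d + 2) → ℚ),
      y0 ∈ PiB C.M C.a Φ.dF Aw ∧ (∀ i, y i ∈ PiB C.M C.a Φ.dF Aw) ∧
      LinearIndependent ℚ fun i => y i - y0 := by
    rw [hPi] at hne hh ⊢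
    exact exists_points hne hh
  obtain ⟨p, hp⟩ : ∃ p : Fin (h + 1) → Fin (d + 2) → ℚ, p = Fin.cases y0 y := ⟨_, rfl⟩
  have hp0 : p 0 = y0 := by rw [hp]; rfl
  have hps : ∀ i : Fin h, p i.succ = y i := fun i => by rw [hp]; rfl
  have hpP : ∀ b, p b ∈ PiB C.M C.a Φ.dF Aw := by
    intro b
    refine Fin.cases ?_ (fun i => ?_) b
    · rw [hp0]
      exact hy0
    · rw [hps]
      exact hy i
  obtain ⟨T0, hT0, hden⟩ := exists_den fun x : Fin (h + 1) × Fin (d + 2) => p x.1 x.2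
  choose w' hw' using hden
  obtain ⟨w, hw⟩ : ∃ w : Fin (h + 1) → Fin (d + 2) → ℤ, w = fun b k => w' (b, k) := ⟨_, rfl⟩
  obtain ⟨T, hT⟩ : ∃ T : ℕ, T = Φ.E * T0 := ⟨_, rfl⟩
  have hTpos : 0 < T := by
    rw [hT]
    exact Nat.mul_pos Φ.E_pos hT0
  have hwT : ∀ b k, ((Φ.E * w b k : ℤ) : ℚ) = T * p b k := by
    intro b k
    rw [hT, hw]
    push_cast
    rw [mul_assoc, hw' (b, k)]
  -- the degrees
  have hdeg : ∀ b, ∑ k, (Φ.dF k : ℤ) * (Φ.E * w b k) = T * (∑ k, (Φ.dF k : ℤ) - (d + 2)) := by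
    intro b
    have h1 : ((∑ k, (Φ.dF k : ℤ) * (Φ.E * w b k) : ℤ) : ℚ) =
        ((T * (∑ k, (Φ.dF k : ℤ) - (d + 2)) : ℤ) : ℚ) := by
      have h2 := (hpP b).1
      push_cast
      have h3 : ∀ k, (Φ.dF k : ℚ) * (Φ.E * w b k) = T * (Φ.dF k * p b k) := by
        intro k
        have h4 := hwT b k
        push_cast at h4
        rw [h4]
        ring
      rw [Finset.sum_congr rfl fun k _ => h3 k, ← Finset.mul_sum, h2]
      push_cast
      ring
    exact_mod_cast h1
  obtain ⟨D0, hD0⟩ := exists_dual C.u_bas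
  have hbw0 : bw D0 C.x = 1 := by
    rw [Pool.Agent.W930.CG.bw_one D0 C.x C.hx0]
    change (Matrix.of fun i j => D0 i (C.u j)).det = 1
    rw [hD0, Matrix.det_one]
  obtain ⟨Ex, hEx⟩ : ∃ Ex : Fin (h + 1) → K,
    Ex = fun b => ∏ k, aeval C.x (Φ.F k) ^ ((Φ.E : ℤ) * w b k - T) := ⟨_, rfl⟩
  have hExne : ∀ b, Ex b ≠ 0 := by
    intro b
    rw [hEx]
    exact Finset.prod_ne_zero_iff.2 fun k _ => zpow_ne_zero _ (C.F_ne k)
  refine ⟨T, hTpos, fun b D => bw D C.x ^ T * Ex b, fun b => ⟨?_, ?_⟩, D0, ?_, ?_⟩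
  · intro A D
    dsimp only
    rw [(bwa (d + 1) K).2.1 A D C.x, mul_pow]
    ring
  · intro P hP D hD
    obtain ⟨α, v, hα, hdat⟩ := C.exists_dat P
    have h1 := lc_reg hlc htr C.fin_all' hP hdat hD
    have hy0 : ∀ k, 0 ≤ p b k := by
      intro k
      have h2 := (hpP b).2 _ (adm_unit (a := C.a) C.hM (by omega) k)
      rw [Finset.sum_eq_single k (fun i _ hi => by rw [if_neg hi, Nat.cast_zero, zero_mul])
        (fun h => absurd (Finset.mem_univ _) h), if_pos rfl] at h2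
      have h3 := hA0 (fun i => if i = k then per C.M else 0)
      have h4 : (0 : ℚ) < per C.M := by exact_mod_cast per_pos C.hM
      by_contra hneg
      push Not at hneg
      nlinarith
    have hEord : P.ord (Ex b) = ∑ k, ((Φ.E : ℤ) * w b k - T) * (Φ.dF k * α + v k) := by
      rw [hEx]
      dsimp only
      rw [ord_prod' P Finset.univ _ fun k _ => zpow_ne_zero _ (C.F_ne k)]
      exact Finset.sum_congr rfl fun k _ => by rw [P.ord_zpow, hdat.hv]
    have hEw : ∀ c : ℤ, Ge P ((((d + 1 : ℕ) : ℤ) + 1) * α + ∑ k, (v k : ℤ) - c) (bw D C.x) →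
        bw D C.x ^ T * Ex b = 0 ∨ (∑ k, ((Φ.E : ℤ) * w b k) * v k) - T * c ≤
          P.ord (bw D C.x ^ T * Ex b) := by
      intro c hc
      have h2 := (hc.pow T).mul (ge_ord P (Ex b))
      rcases h2 with h2 | h2
      · exact Or.inl h2
      · right
        refine le_trans ?_ h2
        rw [hEord]
        have h3 : ∑ k, ((Φ.E : ℤ) * w b k - T) * (Φ.dF k * α + v k) =
            α * (∑ k, (Φ.dF k : ℤ) * (Φ.E * w b k)) + ∑ k, ((Φ.E : ℤ) * w b k) * v k -
            T * α * ∑ k, (Φ.dF k : ℤ) - T * ∑ k, (v k : ℤ) := by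
          rw [Finset.mul_sum, Finset.mul_sum, Finset.mul_sum, ← Finset.sum_add_distrib,
            ← Finset.sum_sub_distrib, ← Finset.sum_sub_distrib]
          exact Finset.sum_congr rfl fun k _ => by ring
        rw [h3, hdeg]
        push_cast
        nlinarith
    have hsumq : (T : ℚ) * ∑ k, (v k : ℚ) * p b k = ((∑ k, ((Φ.E : ℤ) * w b k) * v k : ℤ) : ℚ) := by
      rw [Finset.mul_sum]
      push_cast
      refine Finset.sum_congr rfl fun k _ => ?_
      have h8 := hwT b k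
      push_cast at h8
      rw [h8]
      ring
    have hδ0 := hBL.nonneg P hP
    by_cases hpole : Ge P ((((d + 1 : ℕ) : ℤ) + 1) * α + ∑ k, (v k : ℤ)) (bw D C.x)
    · rcases hEw 0 (by simpa using hpole) with h2 | h2
      · exact Or.inl h2
      · right
        refine ⟨1, by simp, one_ne_zero, ?_⟩
        rw [P.ord_one]
        have h3 : (0 : ℤ) ≤ ∑ k, ((Φ.E : ℤ) * w b k) * v k := by
          have h4 : (0 : ℚ) ≤ ((∑ k, ((Φ.E : ℤ) * w b k) * v k : ℤ) : ℚ) := by
            rw [← hsumq]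
            exact mul_nonneg (by positivity)
              (Finset.sum_nonneg fun k _ => mul_nonneg (by positivity) (hy0 k))
          exact_mod_cast h4
        have h4 : (0 : ℤ) ≤ P.ord (bw D C.x ^ T * Ex b) := by linarith
        have h5 : (0 : ℝ) ≤ P.ord (bw D C.x ^ T * Ex b) := by exact_mod_cast h4
        have h6 : (0 : ℝ) ≤ T * δ P := mul_nonneg (by positivity) hδ0
        push_cast
        linarith
    · have hδ1 := hBL.pole P hP α v hdat ⟨D, hD, hpole⟩
      rcases hEw 1 h1 with h2 | h2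
      · exact Or.inl h2
      · right
        refine ⟨1, by simp, one_ne_zero, ?_⟩
        rw [P.ord_one]
        have hv : v ≠ 0 := by
          rintro rfl
          apply hpole
          exact bw_zero_ord hdat hD
        have h3 : (T : ℚ) * Aw v ≤ ((∑ k, ((Φ.E : ℤ) * w b k) * v k : ℤ) : ℚ) := by
          rw [← hsumq]
          exact mul_le_mul_of_nonneg_left ((hpP b).2 v (C.adm hdat hv)) (by positivity)
        have h4 : (((∑ k, ((Φ.E : ℤ) * w b k) * v k) - T * 1 : ℤ) : ℚ) ≤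
            ((P.ord (bw D C.x ^ T * Ex b) : ℤ) : ℚ) := by exact_mod_cast h2
        have h5 : (T : ℚ) * Aw v - T ≤ ((P.ord (bw D C.x ^ T * Ex b) : ℤ) : ℚ) := by
          push_cast at h3 h4 ⊢
          linarith
        have h6 : (T : ℝ) * Aw v - T ≤ ((P.ord (bw D C.x ^ T * Ex b) : ℤ) : ℝ) := by
          exact_mod_cast h5
        have h7 : (T : ℝ) * (1 - Aw v) ≤ T * δ P := mul_le_mul_of_nonneg_left hδ1 (by positivity)
        push_cast
        linarith
  · dsimp only
    rw [hbw0, one_pow, one_mul]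
    exact hExne 0
  · -- the ratios
    obtain ⟨δ, hδ⟩ : ∃ δ : Fin h → Fin (d + 2) → ℤ, δ = fun b k => w b.succ k - w 0 k := ⟨_, rfl⟩
    have hδsum : ∀ b, ∑ k, (Φ.dF k : ℤ) * δ b k = 0 := by
      intro b
      have h1 := hdeg b.succ
      have h2 := hdeg 0
      have h3 : (Φ.E : ℤ) * ∑ k, (Φ.dF k : ℤ) * δ b k = 0 := by
        have h4 : (Φ.E : ℤ) * ∑ k, (Φ.dF k : ℤ) * δ b k =
            ∑ k, (Φ.dF k : ℤ) * (Φ.E * w b.succ k) - ∑ k, (Φ.dF k : ℤ) * (Φ.E * w 0 k) := by
          rw [Finset.mul_sum, ← Finset.sum_sub_distrib]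
          refine Finset.sum_congr rfl fun k _ => ?_
          rw [hδ]
          ring
        rw [h4, h1, h2, sub_self]
      exact (mul_eq_zero.1 h3).resolve_left (by exact_mod_cast Φ.E_pos.ne')
    have hratio : ∀ b : Fin h, bw D0 C.x ^ T * Ex b.succ / (bw D0 C.x ^ T * Ex 0) =
        ∏ i : Fin (d + 1), C.Y i ^ ((Φ.dF i.succ : ℤ) * δ b i.succ) := by
      intro b
      rw [hbw0, one_pow, one_mul, one_mul, hEx]
      dsimp only
      rw [← Finset.prod_div_distrib]
      have h1 : ∀ k, aeval C.x (Φ.F k) ^ ((Φ.E : ℤ) * w b.succ k - T) /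
          aeval C.x (Φ.F k) ^ ((Φ.E : ℤ) * w 0 k - T) =
          aeval C.x (Φ.G k) ^ ((Φ.dF k : ℤ) * δ b k) := by
        intro k
        rw [← zpow_sub₀ (C.F_ne k), ae_G, ← zpow_natCast (aeval C.x (Φ.F k)), ← zpow_mul]
        congr 1
        have h2 : (Φ.dF k : ℤ) * Φ.ee k = Φ.E := by exact_mod_cast Φ.d_ee k
        rw [hδ, ← h2]
        ring
      rw [Finset.prod_congr rfl fun k _ => h1 k, Fin.prod_univ_succ]
      have h2 : (Φ.dF 0 : ℤ) * δ b 0 = - ∑ i : Fin (d + 1), (Φ.dF i.succ : ℤ) * δ b i.succ := by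
        have h3 := hδsum b
        rw [Fin.sum_univ_succ] at h3
        linarith
      rw [h2, ← Finset.sum_neg_distrib, ← prod_zpow_sum (C.G_ne 0), ← Finset.prod_mul_distrib]
      refine Finset.prod_congr rfl fun i _ => ?_
      unfold Y
      rw [div_zpow, zpow_neg, div_eq_mul_inv, mul_comm]
    change AlgebraicIndependent ℂ (fun b : Fin h =>
      bw D0 C.x ^ T * Ex b.succ / (bw D0 C.x ^ T * Ex 0))
    rw [funext hratio]
    refine laurent_ind C.bas_Y.1 C.Y_ne _ ?_
    rw [Fintype.linearIndependent_iff]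
    intro g hg
    have h1 : ∀ i : Fin (d + 1), ∑ b, g b * (δ b i.succ : ℚ) = 0 := by
      intro i
      have h2 := congrFun hg i
      rw [Finset.sum_apply] at h2
      simp only [Pi.smul_apply, smul_eq_mul, Pi.zero_apply] at h2
      push_cast at h2
      have h3 : (Φ.dF i.succ : ℚ) * ∑ b, g b * (δ b i.succ : ℚ) = 0 := by
        rw [Finset.mul_sum, ← h2]
        exact Finset.sum_congr rfl fun b _ => by ring
      exact (mul_eq_zero.1 h3).resolve_left (by exact_mod_cast (Φ.hd _).ne')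
    have h0 : ∑ b, g b * (δ b 0 : ℚ) = 0 := by
      have h3 : (Φ.dF 0 : ℚ) * ∑ b, g b * (δ b 0 : ℚ) = 0 := by
        have h4 : ∀ b, (Φ.dF 0 : ℚ) * δ b 0 = - ∑ i : Fin (d + 1), (Φ.dF i.succ : ℚ) * δ b i.succ := by
          intro b
          have h5 := hδsum b
          rw [Fin.sum_univ_succ] at h5
          have h6 : (((Φ.dF 0 : ℤ) * δ b 0 + ∑ i : Fin (d + 1), (Φ.dF i.succ : ℤ) * δ b i.succ : ℤ) : ℚ)
              = 0 := by
            rw [h5]
            rfl
          push_cast at h6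
          linarith
        calc (Φ.dF 0 : ℚ) * ∑ b, g b * (δ b 0 : ℚ) = ∑ b, g b * ((Φ.dF 0 : ℚ) * δ b 0) := by
              rw [Finset.mul_sum]
              exact Finset.sum_congr rfl fun b _ => by ring
          _ = ∑ b, ∑ i : Fin (d + 1), -((Φ.dF i.succ : ℚ) * (g b * δ b i.succ)) := by
              refine Finset.sum_congr rfl fun b _ => ?_
              rw [h4, mul_neg, Finset.mul_sum, ← Finset.sum_neg_distrib]
              exact Finset.sum_congr rfl fun i _ => by ring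
          _ = ∑ i : Fin (d + 1), -((Φ.dF i.succ : ℚ) * ∑ b, g b * δ b i.succ) := by
              rw [Finset.sum_comm]
              refine Finset.sum_congr rfl fun i _ => ?_
              rw [Finset.sum_neg_distrib, Finset.mul_sum]
          _ = 0 := by
              refine Finset.sum_eq_zero fun i _ => ?_
              rw [h1, mul_zero, neg_zero]
      exact (mul_eq_zero.1 h3).resolve_left (by exact_mod_cast (Φ.hd _).ne')
    have h2 : ∀ k, ∑ b, g b * (δ b k : ℚ) = 0 := fun k => Fin.cases h0 h1 k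
    refine Fintype.linearIndependent_iff.1 hlin g ?_
    funext k
    rw [Finset.sum_apply, Pi.zero_apply]
    have h3 : ∀ b, (T : ℚ) * ((y b - y0) k) = Φ.E * δ b k := by
      intro b
      have h4 := hwT b.succ k
      have h5 := hwT 0 k
      rw [hps] at h4
      rw [hp0] at h5
      rw [Pi.sub_apply, mul_sub, ← h4, ← h5, hδ]
      push_cast
      ring
    have h4 : (T : ℚ) * ∑ b, (g b • (y b - y0)) k = 0 := by
      calc (T : ℚ) * ∑ b, (g b • (y b - y0)) k = ∑ b, g b * ((T : ℚ) * ((y b - y0) k)) := by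
            rw [Finset.mul_sum]
            refine Finset.sum_congr rfl fun b _ => ?_
            rw [Pi.smul_apply, smul_eq_mul]
            ring
        _ = Φ.E * ∑ b, g b * δ b k := by
            rw [Finset.mul_sum]
            refine Finset.sum_congr rfl fun b _ => ?_
            rw [h3]
            ring
        _ = 0 := by rw [h2, mul_zero]
    exact (mul_eq_zero.1 h4).resolve_left (by exact_mod_cast hTpos.ne')

end Cv

end Pool.Agent.K3h47.NC
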