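import Pool.Agent.K3h47.NC.Trf
import Pool.Agent.Y169.CH.Mak

/-!
The main theorem.
-/

set_option autoImplicit false
set_option linter.overlappingInstances false
set_option linter.unusedSectionVars false
set_option maxHeartbeats 400000

open FF MvPolynomial Pool.Agent.W603.LV Pool.Agent.W602.GT Pool.Agent.W602.Cov
open Pool.Agent.TH122.AB Pool.Agent.Y169.CH
open Pool.Agent.Y169.TH (Dat shp eval_shp exists_sh2)

namespace Pool.Agent.K3h47.NC

theorem ncz_sh {n : ℕ} {F : Fin (n + 1) → MvPolynomial (Fin (n + 1)) ℂ}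
    {q : Fin (n + 1) → ℂ} (hq : q (Fin.last n) = 0) (hN : Ncz F) : Ncz fun k => shF q 1 (F k) := by
  intro y hy
  have hy0 : shp q y ≠ 0 := by
    intro h0
    apply hy
    have h1 : ∀ j, y j + q j * y (Fin.last n) = 0 := fun j => congrFun h0 j
    have h2 := h1 (Fin.last n)
    rw [hq, zero_mul, add_zero] at h2
    funext j
    have h3 := h1 j
    rw [h2, mul_zero, add_zero] at h3
    exact h3
  obtain ⟨k, hk⟩ := hN _ hy0
  refine ⟨k, ?_⟩
  change eval y (shF q 1 (F k)) ≠ 0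
  unfold shF
  rw [C_1, one_mul, eval_shp]
  exact hk

variable {d R : ℕ} {K : Type} [Field K] [Algebra ℂ K]

/-- **The cover.** -/
theorem exists_cv {x : Fin (d + 2) → K} (hx0 : x 0 ≠ 0)
    (hbas : IsTranscendenceBasis ℂ fun b : Fin (d + 1) => x b.succ / x 0)
    {F : Fin (d + 2) → MvPolynomial (Fin (d + 2)) ℂ} {dF : Fin (d + 2) → ℕ} (hd : ∀ k, 0 < dF k)
    (hh : ∀ k, (F k).IsHomogeneous (dF k)) (hF0 : ∀ k, F k ≠ 0) (hN : Ncz F) {z : Fin R → K}
    {M : Fin R → ℕ} (hM : ∀ j, 0 < M j) {a : Fin R → Fin (d + 2) → ℕ}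
    (hz : ∀ j, z j ^ M j = ∏ k, (aeval x (F k) / x 0 ^ dF k) ^ a j k)
    (hdiv : ∀ j, M j ∣ ∑ k, a j k * dF k)
    (hgen : IntermediateField.adjoin ℂ
      (Set.range (fun b : Fin (d + 1) => x b.succ / x 0) ∪ Set.range z) = ⊤) :
    ∃ Φ : Arr (d + 1), Φ.dF = dF ∧ ∃ C : Cv Φ K R, C.M = M ∧ C.a = a ∧
      ∃ c : K, Compat F Φ.F dF x C.x c := by
  classical
  obtain ⟨q, hq, hqc⟩ := exists_sh2 hh hF0
  obtain ⟨x', hx'⟩ : ∃ x' : Fin (d + 2) → K, x' = shx q x := ⟨_, rfl⟩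
  obtain ⟨F', hF'⟩ : ∃ F' : Fin (d + 2) → MvPolynomial (Fin (d + 2)) ℂ,
    F' = fun k => shF q 1 (F k) := ⟨_, rfl⟩
  have hxne : ∀ l, x l ≠ 0 := by
    intro l
    refine Fin.cases hx0 (fun b => ?_) l
    intro h0
    apply hbas.1.ne_zero b
    rw [h0, zero_div]
  have hxx' : ∀ j, x j = x' j + algebraMap ℂ K (q j) * x' (Fin.last (d + 1)) := by
    intro j
    rw [hx', shx_last hq]
    unfold shx
    ring
  have hev : ∀ k, aeval x' (F' k) = aeval x (F k) := fun k => by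
    rw [hx', hF']
    have h1 := aeval_shF hq x 1 (F k)
    rwa [map_one, one_mul] at h1
  have hx'0 : x' 0 ≠ 0 := by
    intro h0
    rw [hx'] at h0
    have h1 : aeval (fun b : Fin (d + 1) => x b.succ / x 0) (1 - C (q 0) * X (Fin.last d)) = 0 := by
      rw [map_sub, map_one, map_mul, aeval_C, aeval_X]
      have h3 : x 0 - algebraMap ℂ K (q 0) * x (Fin.last (d + 1)) = 0 := h0
      have h4 : (Fin.last d).succ = Fin.last (d + 1) := rfl
      rw [h4]
      field_simp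
      linear_combination h3
    have h2 := (injective_iff_map_eq_zero _).1 hbas.1 _ h1
    have h3 := congrArg (eval (0 : Fin (d + 1) → ℂ)) h2
    simp at h3
  obtain ⟨ρ, hρ⟩ : ∃ ρ : K, ρ = x 0 / x' 0 := ⟨_, rfl⟩
  have hρ0 : ρ ≠ 0 := by
    rw [hρ]
    exact div_ne_zero hx0 hx'0
  have hkey : ∀ L : IntermediateField ℂ K, (∀ b : Fin (d + 1), x' b.succ / x' 0 ∈ L) → ∀ j,
      x j / x' 0 ∈ L := by
    intro L hL j
    have h1 : ∀ j, x' j / x' 0 ∈ L := by
      intro j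
      refine Fin.cases ?_ (fun l => hL l) j
      rw [div_self hx'0]
      exact L.one_mem
    have h2 : x j / x' 0 = x' j / x' 0 +
        algebraMap ℂ K (q j) * (x' (Fin.last (d + 1)) / x' 0) := by
      rw [hxx' j]
      ring
    rw [h2]
    exact L.add_mem (h1 j) (L.mul_mem (L.algebraMap_mem _) (h1 _))
  have hkey2 : ∀ L : IntermediateField ℂ K, (∀ b : Fin (d + 1), x' b.succ / x' 0 ∈ L) →
      ∀ b : Fin (d + 1), x b.succ / x 0 ∈ L := by
    intro L hL b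
    have h1 : x b.succ / x 0 = (x b.succ / x' 0) / (x 0 / x' 0) :=
      (div_div_div_cancel_right₀ hx'0 _ _).symm
    rw [h1]
    exact L.div_mem (hkey L hL _) (hkey L hL _)
  obtain ⟨X, hX⟩ : ∃ X : Fin (d + 2) → K, X = fun j => x' j / x' 0 := ⟨_, rfl⟩
  have hX0 : X 0 = 1 := by
    rw [hX]
    exact div_self hx'0
  have hXs : ∀ b : Fin (d + 1), X b.succ = x' b.succ / x' 0 := fun b => by rw [hX]
  have hbas' : IsTranscendenceBasis ℂ fun b : Fin (d + 1) => X b.succ := by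
    refine basis_of_le hbas ?_
    rw [IntermediateField.adjoin_le_iff]
    rintro _ ⟨b, rfl⟩
    refine hkey2 _ (fun b' => ?_) b
    rw [← hXs]
    exact IntermediateField.subset_adjoin ℂ _ ⟨b', rfl⟩
  have hFX : ∀ k, aeval X (F' k) = aeval x (F k) / x' 0 ^ dF k := by
    intro k
    have h1 : (F' k).IsHomogeneous (dF k) := by
      rw [hF']
      exact shF_hom _ _ (hh k)
    rw [eq_div_iff (pow_ne_zero _ hx'0), mul_comm, ← aeval_smul_form h1, ← hev]
    congr 2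
    funext l
    rw [hX, mul_div_cancel₀ _ hx'0]
  obtain ⟨s, hs⟩ : ∃ s : Fin R → ℕ, s = fun j => (∑ k, a j k * dF k) / M j := ⟨_, rfl⟩
  have hsM : ∀ j, s j * M j = ∑ k, a j k * dF k := fun j => by
    rw [hs]
    exact Nat.div_mul_cancel (hdiv j)
  let Φ : Arr (d + 1) :=
    { F := F'
      dF := dF
      hd := hd
      hh := fun k => by
        rw [hF']
        exact shF_hom _ _ (hh k)
      hN := by
        rw [hF']
        exact ncz_sh hq hN
      hI := fun k => ⟨Finsupp.single (Fin.last (d + 1)) (dF k), by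
        rw [mem_support_iff, hF']
        exact hqc k, by
        rw [Finsupp.single_apply, if_neg]
        exact (Fin.succ_ne_zero (Fin.last d))⟩ }
  refine ⟨Φ, rfl, ⟨X, hX0, hbas', fun j => z j * ρ ^ s j, M, hM, a, fun j => ?_, hdiv, ?_⟩, rfl,
    rfl, 1 * x' 0, ?_⟩
  · change (z j * ρ ^ s j) ^ M j = ∏ k, aeval X (F' k) ^ a j k
    rw [mul_pow, hz, ← pow_mul, hsM, ← Finset.prod_pow_eq_pow_sum, ← Finset.prod_mul_distrib]
    refine Finset.prod_congr rfl fun k _ => ?_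
    rw [hFX, mul_comm (a j k), pow_mul ρ, ← mul_pow, hρ]
    congr 1
    rw [div_pow]
    field_simp
  · rw [eq_top_iff, ← hgen, IntermediateField.adjoin_le_iff]
    obtain ⟨L, hL⟩ : ∃ L, L = IntermediateField.adjoin ℂ
      (Set.range (fun b : Fin (d + 1) => X b.succ) ∪ Set.range fun j => z j * ρ ^ s j) := ⟨_, rfl⟩
    rw [← hL]
    have hu : ∀ b : Fin (d + 1), x' b.succ / x' 0 ∈ L := fun b => by
      rw [hL, ← hXs]
      exact IntermediateField.subset_adjoin ℂ _ (Or.inl ⟨b, rfl⟩)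
    rintro _ (⟨b, rfl⟩ | ⟨j, rfl⟩)
    · exact hkey2 L hu b
    · have h1 : z j * ρ ^ s j ∈ L := by
        rw [hL]
        exact IntermediateField.subset_adjoin ℂ _ (Or.inr ⟨j, rfl⟩)
      have h2 : ρ ^ s j ∈ L := by
        have h3 : ρ ∈ L := by
          rw [hρ]
          exact hkey L hu 0
        exact pow_mem h3 _
      have h3 := L.div_mem h1 h2
      rwa [mul_div_cancel_right₀ _ (pow_ne_zero _ hρ0)] at h3
  · have h1 : Compat F F' dF x x' 1 := by
      rw [hF', hx']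
      exact compat_shear hq hxne
    have h2 : Compat F' F' dF x' X (x' 0) := by
      refine compat_scale (fun k => by rw [hF']; exact shF_hom _ _ (hh k)) hx'0 fun l => ?_
      rw [hX, mul_div_cancel₀ _ hx'0]
    exact h1.trans h2

/-- **The main theorem.** -/
theorem main {x : Fin (d + 2) → K} (hx0 : x 0 ≠ 0)
    (hbas : IsTranscendenceBasis ℂ fun b : Fin (d + 1) => x b.succ / x 0)
    {F : Fin (d + 2) → MvPolynomial (Fin (d + 2)) ℂ} {dF : Fin (d + 2) → ℕ} (hd : ∀ k, 0 < dF k)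
    (hh : ∀ k, (F k).IsHomogeneous (dF k)) (hF0 : ∀ k, F k ≠ 0) (hN : Ncz F) {z : Fin R → K}
    {M : Fin R → ℕ} (hM : ∀ j, 0 < M j) {a : Fin R → Fin (d + 2) → ℕ}
    (hz : ∀ j, z j ^ M j = ∏ k, (aeval x (F k) / x 0 ^ dF k) ^ a j k)
    (hdiv : ∀ j, M j ∣ ∑ k, a j k * dF k)
    (hgen : IntermediateField.adjoin ℂ
      (Set.range (fun b : Fin (d + 1) => x b.succ / x 0) ∪ Set.range z) = ⊤)
    (hlc : Cv.LogC F dF x) {δ : Place ℂ K → ℝ} {A : (Fin (d + 2) → ℕ) → ℚ}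
    (hU : BdU F dF x δ A) (hL : BdL F dF x δ A)
    (hsub : ∀ v, Adm M a v → ∀ t : ℕ, 0 < t → A (fun k => t * v k) ≤ t * A v)
    (hfin : (Set.range A).Finite) :
    (BPsef (d + 1) K δ ↔ (PiB M a dF A).Nonempty) ∧
    (BKod (d + 1) K δ 0 ↔ (PiB M a dF A).Nonempty) ∧
    ((PiB M a dF A).Nonempty →
      BKod (d + 1) K δ (Module.finrank ℚ (vectorSpan ℚ (PiB M a dF A))) ∧
      BNum (d + 1) K δ (Module.finrank ℚ (vectorSpan ℚ (PiB M a dF A)))) := by
  classical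
  obtain ⟨Φ, rfl, C, rfl, rfl, c, hc⟩ := exists_cv hx0 hbas hd hh hF0 hN hM hz hdiv hgen
  have hlc' := hc.logC hlc
  have hU' := hc.bdU hU
  have hL' := hc.bdL hL
  have h1 : BPsef (d + 1) K δ → (PiB C.M C.a Φ.dF A).Nonempty := by
    rintro ⟨S, hpsef⟩
    by_contra hcon
    rw [Set.not_nonempty_iff_eq_empty] at hcon
    obtain ⟨M0, hM0⟩ := C.not_psef hlc' hU' hsub hfin hcon S
    obtain ⟨j, hj, ω, hω0, hω⟩ := hpsef M0
    exact hω0 (hM0 j hj ω (bsec_sec hω))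
  have h2 : (PiB C.M C.a Φ.dF A).Nonempty →
      BKod (d + 1) K δ (Module.finrank ℚ (vectorSpan ℚ (PiB C.M C.a Φ.dF A))) := fun hne =>
    C.kod_ge hlc' hL' hU.nonneg hfin hne rfl
  have h3 : ∀ h, BKod (d + 1) K δ h → BKod (d + 1) K δ 0 := by
    rintro h ⟨m, hm, ω, hω, D, hD, -⟩
    refine ⟨m, hm, fun _ => ω 0, fun _ => hω 0, D, hD, ?_⟩
    exact algebraicIndependent_empty_type
  refine ⟨⟨h1, fun hne => psef_of_bkod hL.nonneg (h2 hne)⟩,
    ⟨fun hk => h1 (psef_of_bkod hL.nonneg hk), fun hne => h3 _ (h2 hne)⟩,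
    fun hne => ⟨h2 hne, fun S => ?_⟩⟩
  obtain ⟨C1, hC1⟩ := C.num_le hlc' hU' hsub hfin hne S
  exact ⟨C1, fun m N hm ⟨ω, hlin, hω⟩ => hC1 m N hm ω hlin fun l => bsec_one (hω l)⟩

end Pool.Agent.K3h47.NC
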