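import Pool.Agent.K3h47.NC.Cfi

/-!
Pairs whose pull-back to a common finite cover is between the pull-backs of two pairs.
-/

set_option autoImplicit false
set_option linter.overlappingInstances false
set_option linter.unusedSectionVars false
set_option maxHeartbeats 400000

open FF MvPolynomial Pool.Agent.W602.GT Pool.Agent.W619.PQ Pool.Agent.W619.TW
  Pool.Agent.Y172 Pool.Agent.Y191 Pool.Agent.Y174

namespace Pool.Agent.K3h47.NC

section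

variable {K L : Type} [Field K] [Field L] [Algebra ℂ K] [Algebra ℂ L]

/-- the pull-back of `(X, Δ)` is between the ones of `b₀` and `b₁` -/
structure Btw (M : Type) [Field M] [Algebra ℂ M] [Algebra K M] [Algebra L M]
    (b₀ b₁ : Place ℂ L → ℚ) {N : ℕ} (y : Fin (N + 1) → K) (n : ℕ) (Δ : Place ℂ K → ℚ) : Prop where
  normal : NormalModel y
  effective : Effective y Δ
  mult : ∀ P, IsPrimeDivisor y P → ∀ (P' : Place ℂ M) (Q : Place ℂ L) (e e' : ℕ),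
    LiesOn P' P e → LiesOn P' Q e' → (e' : ℚ) * (1 - b₁ Q) ≤ e * (1 - Δ P) ∧
      (e : ℚ) * (1 - Δ P) ≤ e' * (1 - b₀ Q)
  disc : ∀ P, Divisorial n P → ∀ (P' : Place ℂ M) (Q : Place ℂ L) (e e' : ℕ),
    LiesOn P' P e → LiesOn P' Q e' → LogDisc y n Δ P (e' * (1 - b₁ Q) / e)

end

section com

variable {K L M : Type} [Field K] [Field L] [Field M]
    [Algebra ℂ K] [Algebra ℂ L] [Algebra ℂ M] [Algebra K M] [Algebra L M] [IsScalarTower ℂ K M]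
    [IsScalarTower ℂ L M] [FiniteDimensional K M] [FiniteDimensional L M]

/-- the data on `X` -/
theorem btw_data {n : ℕ} (htr : Algebra.trdeg ℂ L = (n : ℕ)) (hessL : Algebra.EssFiniteType ℂ L)
    {b₀ b₁ : Place ℂ L → ℚ} (hb : ∀ Q, b₀ Q ≤ b₁ Q) {N : ℕ} {y : Fin (N + 1) → K}
    {Δ : Place ℂ K → ℚ} (hy : Btw M b₀ b₁ y n Δ) :
    Algebra.trdeg ℂ K = (n : ℕ) ∧ ∃ δ : Place ℂ K → ℚ,
      (∀ d, PairKod ℂ L n (fun P => ((b₀ P : ℚ) : ℝ)) d →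
        PairKod ℂ K n (fun P => ((δ P : ℚ) : ℝ)) d) ∧
      (∀ d, PairNum ℂ L n (fun P => ((b₁ P : ℚ) : ℝ)) d →
        PairNum ℂ K n (fun P => ((δ P : ℚ) : ℝ)) d) ∧
      (Pool.Agent.R885.N.NegB ℂ L n (fun P => ((b₁ P : ℚ) : ℝ)) →
        Pool.Agent.R885.N.NegB ℂ K n (fun P => ((δ P : ℚ) : ℝ))) ∧
      (∀ P, IsPrimeDivisor y P → δ P ≤ Δ P) ∧
      ∀ Q, Divisorial n Q → LogDisc y n Δ Q (1 - δ Q) := by
  classical
  choose e v hv using fun w : Place ℂ M => Pool.Agent.W73.PG.PULL.exists_over' (K := L) w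
  choose f u hu using fun w : Place ℂ M => Pool.Agent.W73.PG.PULL.exists_over' (K := K) w
  obtain ⟨β₀, hβ₀⟩ : ∃ β : Place ℂ M → ℚ, β = fun w => 1 - (e w : ℚ) * (1 - b₀ (v w)) := ⟨_, rfl⟩
  obtain ⟨β₁, hβ₁⟩ : ∃ β : Place ℂ M → ℚ, β = fun w => 1 - (e w : ℚ) * (1 - b₁ (v w)) := ⟨_, rfl⟩
  obtain ⟨β, hβ⟩ : ∃ β : Place ℂ M → ℚ, β = fun w =>
    if IsPrimeDivisor y (u w) then 1 - (f w : ℚ) * (1 - Δ (u w)) else β₁ w := ⟨_, rfl⟩
  have hle0 : ∀ w, β₀ w ≤ β₁ w := by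
    intro w
    rw [hβ₀, hβ₁]
    beta_reduce
    have h1 := hb (v w)
    have h2 : (0 : ℚ) ≤ e w := Nat.cast_nonneg _
    nlinarith
  have hle1 : ∀ w, β₀ w ≤ β w ∧ β w ≤ β₁ w := by
    intro w
    by_cases hw : IsPrimeDivisor y (u w)
    · have h1 := hy.mult (u w) hw w (v w) (f w) (e w) (hu w) (hv w)
      rw [hβ]
      beta_reduce
      rw [if_pos hw, hβ₀, hβ₁]
      beta_reduce
      exact ⟨by linarith [h1.2], by linarith [h1.1]⟩
    · rw [hβ]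
      beta_reduce
      rw [if_neg hw]
      exact ⟨hle0 w, le_rfl⟩
  have hβ0' : ∀ (Q : Place ℂ L) (Q' : Place ℂ M) (e' : ℕ), LiesOn Q' Q e' →
      β₀ Q' = 1 - e' * (1 - b₀ Q) := by
    intro Q Q' e' hQ'
    obtain ⟨h1, h2⟩ := Pool.Agent.R885.N.over_uniq hQ' (hv Q')
    rw [hβ₀, h1, h2]
  have hβ1' : ∀ (Q : Place ℂ L) (Q' : Place ℂ M) (e' : ℕ), LiesOn Q' Q e' →
      β₁ Q' = 1 - e' * (1 - b₁ Q) := by
    intro Q Q' e' hQ'
    obtain ⟨h1, h2⟩ := Pool.Agent.R885.N.over_uniq hQ' (hv Q')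
    rw [hβ₁, h1, h2]
  have hpb : Pool.Agent.R885.N.IsPulledBack β y n Δ := by
    refine ⟨hy.normal, hy.effective, ?_, ?_⟩
    · intro P hP P' e' hP'
      obtain ⟨h1, h2⟩ := Pool.Agent.R885.N.over_uniq hP' (hu P')
      rw [hβ]
      beta_reduce
      rw [← h2, if_pos hP, ← h1]
    · intro P hP P' e' hP'
      obtain ⟨h1, h2⟩ := Pool.Agent.R885.N.over_uniq hP' (hu P')
      by_cases hpr : IsPrimeDivisor y P
      · left
        refine ⟨hpr, le_of_eq ?_⟩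
        rw [hβ]
        beta_reduce
        rw [← h2, if_pos hpr, ← h1]
        have he : (e' : ℚ) ≠ 0 := by
          have := hP'.1.ne'
          exact_mod_cast this
        field_simp
        ring
      · have h3 : β P' = β₁ P' := by
          rw [hβ]
          beta_reduce
          rw [← h2, if_neg hpr]
        rw [h3, hβ₁]
        beta_reduce
        rw [sub_sub_cancel]
        exact hy.disc P hP P' (v P') e' (e P') hP' (hv P')
  have hessM : Algebra.EssFiniteType ℂ M := Pool.Agent.R885.N.w6_ess (K := L) hessL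
  have htrM : Algebra.trdeg ℂ M = (n : ℕ) := Pool.Agent.R885.N.w6_trdeg (K := L) htr
  have htrK : Algebra.trdeg ℂ K = (n : ℕ) := by
    have h1 := trdeg_add_eq ℂ K (A := M)
    have h2 : Algebra.trdeg K M = 0 := trdeg_eq_zero
    rw [h2, add_zero, htrM] at h1
    exact h1
  obtain ⟨z', hz'⟩ := Pool.Agent.W636.PG.exists_basis ℂ K n htrK
  have hessK : Algebra.EssFiniteType ℂ K := Pool.Agent.Y174.ess_down hessM z' hz'
  have hp0 : ∀ v, IsDivisorial v n → ∀ (w : Place ℂ M) e, LiesOn w v e →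
      (fun P => ((β₀ P : ℚ) : ℝ)) w = 1 - e * (1 - (fun P => ((b₀ P : ℚ) : ℝ)) v) := by
    intro v hv w e hwv
    beta_reduce
    rw [hβ0' v w e hwv]
    push_cast
    ring
  have hp1 : ∀ v, IsDivisorial v n → ∀ (w : Place ℂ M) e, LiesOn w v e →
      (fun P => ((β₁ P : ℚ) : ℝ)) w = 1 - e * (1 - (fun P => ((b₁ P : ℚ) : ℝ)) v) := by
    intro v hv w e hwv
    beta_reduce
    rw [hβ1' v w e hwv]
    push_cast
    ring
  have hm0 : ∀ w, IsDivisorial w n → ((β₀ w : ℚ) : ℝ) ≤ ((β w : ℚ) : ℝ) := fun w _ => by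
    exact_mod_cast (hle1 w).1
  have hm1 : ∀ w, IsDivisorial w n → ((β w : ℚ) : ℝ) ≤ ((β₁ w : ℚ) : ℝ) := fun w _ => by
    exact_mod_cast (hle1 w).2
  obtain ⟨k1, -, -⟩ := Pool.Agent.R885.N.fin_all (K := L) (L := M) hessL htr hp0
  obtain ⟨-, k2, k3⟩ := Pool.Agent.R885.N.fin_all (K := L) (L := M) hessL htr hp1
  obtain ⟨δ, d1, d2, d3, d4, d5⟩ := Pool.Agent.R885.N.pulled_data hessK htrK hpb
  refine ⟨htrK, δ, fun d h => d1 d (Pool.Agent.R885.N.kod_mono hm0 ((k1 d).2 h)),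
    fun d h => d2 d (Pool.Agent.R885.N.pairNum_mono hm1 ((k2 d).2 h)), fun h => d3 ?_, d4, d5⟩
  have h4 := k3.2 h
  intro T
  obtain ⟨M0, hM0⟩ := h4 T
  exact ⟨M0, fun m hm ω hω => hM0 m hm ω (Pool.Agent.R885.N.pairSec_mono hm1 hω)⟩

/-- **Pairs which are commensurable with a given pair.** -/
theorem btw_final {n : ℕ} (htr : Algebra.trdeg ℂ L = (n : ℕ)) (hessL : Algebra.EssFiniteType ℂ L)
    {b₀ b₁ : Place ℂ L → ℚ} (hb : ∀ Q, b₀ Q ≤ b₁ Q) {N : ℕ} {y : Fin (N + 1) → K}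
    {Δ : Place ℂ K → ℚ} (hy : Btw M b₀ b₁ y n Δ) :
    (∀ d, BKod n L (fun P => ((b₀ P : ℚ) : ℝ)) d → BNum n L (fun P => ((b₁ P : ℚ) : ℝ)) d →
      kodairaDim y n Δ = (d : WithBot ℕ) ∧
      ∀ A, Effective y A → Integral y A → numericalDim y n Δ A = (d : EReal)) ∧
    (¬ BPsef n L (fun P => ((b₁ P : ℚ) : ℝ)) → kodairaDim y n Δ = ⊥ ∧ ∀ A, Effective y A →
      (∃ M0 : ℕ, ∀ m : ℕ, M0 ≤ m → h0 y n m (m • Δ + A) = 0) ∧ numericalDim y n Δ A = ⊥) := by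
  obtain ⟨htrK, δ, h1, h2, h3, h4, h5⟩ := btw_data htr hessL hb hy
  refine ⟨fun d hk hn => ?_, fun h => ?_⟩
  · exact Pool.Agent.R885.dims_pair htrK hy.normal hy.effective h4 h5 (h1 d (kod_conv hk))
      (h2 d (num_conv hn))
  · exact Pool.Agent.R885.neg_pair htrK hy.normal h5 (h3 (neg_conv h))

end com

section

variable {n : ℕ} {K : Type} [Field K] [Algebra ℂ K]

/-- the pairs -/
structure Cfg (M : Type) [Field M] [Algebra ℂ M] [Algebra K M] [Algebra (Rf n) M]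
    (F : Fin (n + 1) → MvPolynomial (Fin (n + 1)) ℂ) (d : Fin (n + 1) → ℕ)
    (A : (Fin (n + 1) → ℕ) → ℚ) {N : ℕ} (y : Fin (N + 1) → K) (Δ : Place ℂ K → ℚ) : Prop where
  normal : NormalModel y
  effective : Effective y Δ
  mult : ∀ P, IsPrimeDivisor y P → ∀ (P' : Place ℂ M) (Q : Place ℂ (Rf n)) (e e' : ℕ),
    LiesOn P' P e → LiesOn P' Q e' →
      (e' : ℚ) * A (mu F d (gp n) Q) ≤ e * (1 - Δ P) ∧ (e : ℚ) * (1 - Δ P) ≤ e' ∧
      (Lp F d (gp n) Q → (e : ℚ) * (1 - Δ P) = e' * A (mu F d (gp n) Q))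
  disc : ∀ P, Divisorial n P → ∀ (P' : Place ℂ M) (Q : Place ℂ (Rf n)) (e e' : ℕ),
    LiesOn P' P e → LiesOn P' Q e' → LogDisc y n Δ P (e' * A (mu F d (gp n) Q) / e)

variable {M : Type} [Field M] [Algebra ℂ M] [Algebra K M]
  [Algebra (Rf n) M] [IsScalarTower ℂ K M] [IsScalarTower ℂ (Rf n) M] [FiniteDimensional K M]
  [FiniteDimensional (Rf n) M]

/-- **The theorem.** -/
theorem config_btw (hn : 1 ≤ n) (d : Fin (n + 1) → ℕ) (hd : ∀ k, 1 ≤ d k)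
    (F : Fin (n + 1) → MvPolynomial (Fin (n + 1)) ℂ) (hF : ∀ k, (F k).IsHomogeneous (d k))
    (hF0 : ∀ k, F k ≠ 0) (hF1 : Ncz F)
    (hlc : ∀ P : Place ℂ (Rf n), Divisorial n P →
      ∀ D : Fin n → Derivation ℂ (Rf n) (Rf n), (∀ c, DerLog P (D c)) →
      Om (gp n) D = 0 ∨ 0 ≤ lo F d (gp n) P D)
    (A : (Fin (n + 1) → ℕ) → ℚ) (hA : ∀ v, 0 ≤ A v ∧ A v ≤ 1) (hA0 : A 0 = 1)
    (hfin : (Set.range A).Finite)
    (hsub : ∀ v : Fin (n + 1) → ℕ, v ≠ 0 → (∃ k, v k = 0) → ∀ t : ℕ, 1 ≤ t →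
      A (t • v) ≤ t * A v)
    {N : ℕ} {y : Fin (N + 1) → K} {Δ : Place ℂ K → ℚ} (hy : Cfg M F d A y Δ) :
    ((PiC d A).Nonempty →
      kodairaDim y n Δ = ((Module.finrank ℚ (vectorSpan ℚ (PiC d A)) : ℕ) : WithBot ℕ) ∧
      ∀ B, Effective y B → Integral y B →
        numericalDim y n Δ B = ((Module.finrank ℚ (vectorSpan ℚ (PiC d A)) : ℕ) : EReal)) ∧
    (PiC d A = ∅ → kodairaDim y n Δ = ⊥ ∧ ∀ B, Effective y B →
      (∃ M0 : ℕ, ∀ m : ℕ, M0 ≤ m → h0 y n m (m • Δ + B) = 0) ∧ numericalDim y n Δ B = ⊥) := by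
  classical
  obtain ⟨b₁, hb₁⟩ : ∃ b : Place ℂ (Rf n) → ℚ, b = fun Q => 1 - A (mu F d (gp n) Q) := ⟨_, rfl⟩
  obtain ⟨b₀, hb₀⟩ : ∃ b : Place ℂ (Rf n) → ℚ, b = fun Q =>
    if Lp F d (gp n) Q then 1 - A (mu F d (gp n) Q) else 0 := ⟨_, rfl⟩
  have hA1 : ∀ Q, 0 ≤ 1 - A (mu F d (gp n) Q) := fun Q => by linarith [(hA (mu F d (gp n) Q)).2]
  have hle : ∀ Q, b₀ Q ≤ b₁ Q := by
    intro Q
    rw [hb₀, hb₁]
    beta_reduce
    split_ifs
    · exact le_rfl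
    · exact hA1 Q
  have hB1 : Bd F d (gp n) A b₁ := by
    intro Q _
    rw [hb₁]
    exact ⟨hA1 Q, le_rfl, fun _ => rfl⟩
  have hB0 : Bd F d (gp n) A b₀ := by
    intro Q _
    rw [hb₀]
    beta_reduce
    split_ifs with h
    · exact ⟨hA1 Q, le_rfl, fun _ => rfl⟩
    · exact ⟨le_rfl, hA1 Q, fun h' => absurd h' h⟩
  have hbt : Btw M b₀ b₁ y n Δ := by
    refine ⟨hy.normal, hy.effective, fun P hP P' Q e e' h1 h2 => ?_,
      fun P hP P' Q e e' h1 h2 => ?_⟩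
    · obtain ⟨h3, h4, h5⟩ := hy.mult P hP P' Q e e' h1 h2
      rw [hb₀, hb₁]
      beta_reduce
      rw [sub_sub_cancel]
      refine ⟨h3, ?_⟩
      split_ifs with h
      · rw [sub_sub_cancel]
        exact (h5 h).le
      · rw [sub_zero, mul_one]
        exact h4
    · rw [hb₁]
      beta_reduce
      rw [sub_sub_cancel]
      exact hy.disc P hP P' Q e e' h1 h2
  obtain ⟨g1, g2⟩ := config n hn d hd F hF hF0 hF1 hlc A (fun v => (hA v).1) hA0 hfin hsub b₁ hB1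
  obtain ⟨g3, g4⟩ := config n hn d hd F hF hF0 hF1 hlc A (fun v => (hA v).1) hA0 hfin hsub b₀ hB0
  obtain ⟨h3, h4⟩ := btw_final (gp_tr n) (rf_ess n) hle hbt
  refine ⟨fun hne => h3 _ (g4 hne).1 (g2 hne).2, fun hemp => h4 fun hps => ?_⟩
  have h5 := g1.1 hps
  rw [hemp] at h5
  exact Set.not_nonempty_empty h5

end

end Pool.Agent.K3h47.NC
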