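import Pool.Agent.K3h47.NC.Kod
import Pool.Agent.W73.PG.PULL
import Pool.Agent.Y169.TH.Mak

/-!
Log canonical pairs: finite covers and changes of the coordinates.
-/

set_option autoImplicit false
set_option linter.overlappingInstances false
set_option linter.unusedSectionVars false
set_option maxHeartbeats 400000

open FF MvPolynomial Pool.Agent.W603.LV Pool.Agent.W602.GT Pool.Agent.W602.Cov
open Pool.Agent.W602.Cov.G Pool.Agent.TH152.AC Pool.Agent.TH122.AB Pool.Agent.Y169.CH
open Pool.Agent.TH756.PN Pool.Agent.W619.PQ Pool.Agent.W619.TW Pool.Agent.W619.Y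
open Pool.Agent.Y169.TH (Dat)

namespace Pool.Agent.K3h47.NC

section up

variable {n : ℕ} {K0 K : Type} [Field K0] [Field K] [Algebra ℂ K0] [Algebra ℂ K]
  [Algebra K0 K] [IsScalarTower ℂ K0 K]

/-- the pull back of the form -/
theorem bw_up {y : Fin n → K0} (hy : IsTranscendenceBasis ℂ y) {E : Fin n → Derivation ℂ K0 K0}
    (hE : ∀ i j, E i (y j) = if i = j then 1 else 0) (D : Fin n → Derivation ℂ K K)
    (X : Fin (n + 1) → K0) : bw D (fun j => algebraMap K0 K (X j)) =
      (Matrix.of fun a c => D a (algebraMap K0 K (y c))).det * algebraMap K0 K (bw E X) := by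
  classical
  obtain ⟨B, hB⟩ : ∃ B : Matrix (Fin (n + 1)) (Fin (n + 1)) K, B = Matrix.of fun i j =>
    (Fin.cases (Fin.cases 1 (fun _ => 0) j) (fun l => Fin.cases 0 (fun c =>
      D l (algebraMap K0 K (y c))) j) i : K) := ⟨_, rfl⟩
  have hdet : B.det = (Matrix.of fun a c => D a (algebraMap K0 K (y c))).det := by
    rw [Matrix.det_succ_row_zero, Finset.sum_eq_single 0]
    · rw [hB]
      simp only [Fin.val_zero, pow_zero, Matrix.of_apply, Fin.cases_zero, one_mul]
      congr 1
    · intro j _ hj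
      obtain ⟨c, rfl⟩ := Fin.exists_succ_eq.2 hj
      rw [hB, Matrix.of_apply]
      simp only [Fin.cases_zero, Fin.cases_succ, mul_zero, zero_mul]
    · intro h
      exact absurd (Finset.mem_univ _) h
  rw [← hdet]
  have h1 : algebraMap K0 K (bw E X) = (Matrix.of fun i j => algebraMap K0 K
      (Fin.cases (X j) (fun l => E l (X j)) i : K0)).det := by
    unfold bw
    rw [RingHom.map_det]
    rfl
  rw [h1, ← Matrix.det_mul]
  unfold bw
  congr 1
  ext i j
  rw [Matrix.mul_apply, Fin.sum_univ_succ, hB]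
  simp only [Matrix.of_apply]
  refine Fin.cases ?_ (fun l => ?_) i
  · simp only [Fin.cases_zero, Fin.cases_succ, one_mul, zero_mul, Finset.sum_const_zero, add_zero]
  · simp only [Fin.cases_zero, Fin.cases_succ, zero_mul, zero_add]
    exact Pool.Agent.W73.PG.PULL.chain y hy E hE (D l) (X j)

/-- **A finite cover of a log canonical pair is log canonical.** -/
theorem logC_up [FiniteDimensional K0 K] {F : Fin (n + 1) → MvPolynomial (Fin (n + 1)) ℂ}
    {dF : Fin (n + 1) → ℕ} {X : Fin (n + 1) → K0} (hlc : Cv.LogC F dF X)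
    (htr : Algebra.trdeg ℂ K0 = n)
    (hfd : ∀ y : Fin n → K0, IsTranscendenceBasis ℂ y →
      FiniteDimensional (IntermediateField.adjoin ℂ (Set.range y)) K0) :
    Cv.LogC F dF fun j => algebraMap K0 K (X j) := by
  classical
  intro P hP α v hdat D hD
  obtain ⟨e, Q, hPQ⟩ := Pool.Agent.W73.PG.PULL.exists_over' (K := K0) P
  have hQ : Divisorial n Q := pDIVI ℂ K0 K n Q P e hPQ hP
  have he : (1 : ℤ) ≤ e := by exact_mod_cast hPQ.1
  have hF : ∀ k, aeval (fun j => algebraMap K0 K (X j)) (F k) = algebraMap K0 K (aeval X (F k)) :=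
    fun k => MvPolynomial.aeval_algebraMap_apply K X (F k)
  obtain ⟨j0, hj0⟩ := hdat.ha2
  obtain ⟨α0, hα0⟩ : ∃ α0, α0 = Q.ord (X j0) := ⟨_, rfl⟩
  have hαe : α = e * α0 := by rw [← hj0, hPQ.2, hα0]
  have hv0 : ∀ k, (v k : ℤ) = e * (Q.ord (aeval X (F k)) - dF k * α0) := by
    intro k
    have h1 := hdat.hv k
    rw [hF, hPQ.2, hαe] at h1
    linarith
  have hnn : ∀ k, 0 ≤ Q.ord (aeval X (F k)) - dF k * α0 := by
    intro k
    have h1 := hv0 k
    have h2 : (0 : ℤ) ≤ v k := by positivity
    by_contra hneg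
    push Not at hneg
    nlinarith
  have hdatQ : Dat Q F dF X α0 fun k => (Q.ord (aeval X (F k)) - dF k * α0).toNat := by
    refine ⟨fun l h0 => ?_, fun l => ?_, ⟨j0, hα0.symm⟩, fun k h0 => ?_, fun k => ?_⟩
    · apply hdat.hx l
      rw [h0, map_zero]
    · have h1 := hdat.ha1 l
      rw [hPQ.2, hαe] at h1
      by_contra hneg
      push Not at hneg
      nlinarith
    · apply hdat.hFx k
      rw [hF, h0, map_zero]
    · rw [Int.toNat_of_nonneg (hnn k)]
      ring
  obtain ⟨y, E, i0, dd, hy, hEy, hi0, hyreg, hE, hdd, hbw⟩ := exists_lframe htr hfd hQ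
  have hpi : y i0 ≠ 0 := by
    intro h0
    rw [h0, Q.ord_zero] at hi0
    omega
  have hy0 : ∀ c, algebraMap K0 K (y c) ≠ 0 := by
    intro c h0
    have h1 := hEy c c
    rw [if_pos rfl] at h1
    have h2 : y c = 0 := by simpa using h0
    rw [h2, map_zero] at h1
    exact zero_ne_one h1
  have h1 := hlc Q hQ _ _ hdatQ dd hdd
  rw [hbw] at h1
  have hsum : (e : ℤ) * (((n : ℤ) + 1) * α0 +
      ∑ k, (((Q.ord (aeval X (F k)) - dF k * α0).toNat : ℕ) : ℤ)) =
      ((n : ℤ) + 1) * α + ∑ k, (v k : ℤ) := by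
    rw [mul_add, Finset.mul_sum, hαe]
    congr 1
    · ring
    · exact Finset.sum_congr rfl fun k _ => by rw [Int.toNat_of_nonneg (hnn k), hv0 k]
  -- the determinant
  have hge : Ge P e (Matrix.of fun a c => D a (algebraMap K0 K (y c))).det := by
    have h2 : (Matrix.of fun a c => D a (algebraMap K0 K (y c))).det =
        (∏ c, algebraMap K0 K (y c)) * (Matrix.of fun a c => D a (algebraMap K0 K (y c)) /
          algebraMap K0 K (y c)).det := by
      rw [← Matrix.det_mul_row]
      congr 1
      ext a c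
      simp only [Matrix.of_apply]
      rw [mul_div_cancel₀ _ (hy0 c)]
    rw [h2]
    have h3 : Ge P 0 (Matrix.of fun a c => D a (algebraMap K0 K (y c)) /
        algebraMap K0 K (y c)).det := Pool.Agent.W619.PQ.ge_det P _ fun a c => hD a _
    have h4 : Ge P e (∏ c, algebraMap K0 K (y c)) := by
      rw [← Finset.mul_prod_erase Finset.univ _ (Finset.mem_univ i0)]
      have h5 : Ge P 0 (∏ c ∈ Finset.univ.erase i0, algebraMap K0 K (y c)) := by
        refine Finset.prod_induction _ (fun z => Ge P 0 z) (fun a b ha hb => ?_) Ge.one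
          fun c _ => hPQ.reg.2 (hyreg c)
        simpa using ha.mul hb
      have h6 : Ge P e (algebraMap K0 K (y i0)) := by
        right
        rw [hPQ.2, hi0, mul_one]
      simpa using h6.mul h5
    simpa using h4.mul h3
  rw [bw_up hy hEy]
  rcases h1 with h1 | h1
  · have h2 : bw E X = 0 := (mul_eq_zero.1 h1).resolve_left hpi
    left
    rw [h2, map_zero, mul_zero]
  · by_cases h0 : bw E X = 0
    · left
      rw [h0, map_zero, mul_zero]
    · have h2 : Ge P (e * (((n : ℤ) + 1) * α0 +
          ∑ k, (((Q.ord (aeval X (F k)) - dF k * α0).toNat : ℕ) : ℤ) - 1))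
          (algebraMap K0 K (bw E X)) := by
        right
        rw [hPQ.2]
        rw [Q.ord_mul hpi h0, hi0] at h1
        exact mul_le_mul_of_nonneg_left (by linarith) (by positivity)
      refine (hge.mul h2).mono (le_of_eq ?_)
      rw [← hsum]
      ring

end up

section change

variable {n : ℕ} {K : Type} [Field K] [Algebra ℂ K]

/-- the data in the new coordinates -/
structure Compat (F F' : Fin (n + 1) → MvPolynomial (Fin (n + 1)) ℂ) (dF : Fin (n + 1) → ℕ)
    (x X : Fin (n + 1) → K) (c : K) : Prop where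
  hc : c ≠ 0
  dat : ∀ (P : Place ℂ K) (α : ℤ) (v : Fin (n + 1) → ℕ), Dat P F' dF X α v →
    Dat P F dF x (α + P.ord c) v
  bw : ∀ D : Fin n → Derivation ℂ K K, bw D x = c ^ (n + 1) * bw D X

variable {F F' : Fin (n + 1) → MvPolynomial (Fin (n + 1)) ℂ} {dF : Fin (n + 1) → ℕ}
  {x X : Fin (n + 1) → K} {c : K}

theorem Compat.ge (h : Compat F F' dF x X c) {P : Place ℂ K} {α : ℤ} {s : ℤ}
    {D : Fin n → Derivation ℂ K K} :
    Ge P (((n : ℤ) + 1) * (α + P.ord c) + s) (Pool.Agent.W602.Cov.G.bw D x) ↔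
      Ge P (((n : ℤ) + 1) * α + s) (Pool.Agent.W602.Cov.G.bw D X) := by
  have hc := h.hc
  rw [h.bw]
  unfold Ge
  rw [mul_eq_zero_iff_left (pow_ne_zero _ hc)]
  by_cases h0 : Pool.Agent.W602.Cov.G.bw D X = 0
  · simp [h0]
  · rw [P.ord_mul (pow_ne_zero _ hc) h0, P.ord_pow]
    simp only [h0, false_or]
    push_cast
    constructor <;> intro h1 <;> linarith

theorem Compat.logC (h : Compat F F' dF x X c) (hlc : Cv.LogC F dF x) : Cv.LogC F' dF X := by
  intro P hP α v hdat D hD
  exact h.ge.1 (hlc P hP _ v (h.dat P α v hdat) D hD)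

variable {δ : Place ℂ K → ℝ} {A : (Fin (n + 1) → ℕ) → ℚ}

theorem Compat.bdU (h : Compat F F' dF x X c) (hB : BdU F dF x δ A) : BdU F' dF X δ A :=
  ⟨fun P hP α hdat => hB.zero P hP _ (h.dat P α 0 hdat),
    fun P hP α v hdat hv => hB.pos P hP _ v (h.dat P α v hdat) hv, hB.nonneg⟩

theorem Compat.bdL (h : Compat F F' dF x X c) (hB : BdL F dF x δ A) : BdL F' dF X δ A :=
  ⟨hB.nonneg, fun P hP α v hdat ⟨D, hD, hD'⟩ => hB.pole P hP _ v (h.dat P α v hdat)
    ⟨D, hD, fun h1 => hD' (h.ge.1 h1)⟩⟩

/-- scaling -/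
theorem compat_scale (hh : ∀ k, (F k).IsHomogeneous (dF k)) (hc : c ≠ 0)
    (hx : ∀ l, x l = c * X l) : Compat F F dF x X c := by
  have hxX : x = fun l => c * X l := funext hx
  refine ⟨hc, fun P α v h => ?_, fun D => ?_⟩
  · have hFx : ∀ k, aeval x (F k) = c ^ dF k * aeval X (F k) := fun k => by
      rw [hxX]
      exact aeval_smul_form (hh k) c X
    refine ⟨fun l => ?_, fun l => ?_, ?_, fun k => ?_, fun k => ?_⟩
    · rw [hx]
      exact mul_ne_zero hc (h.hx l)
    · rw [hx, P.ord_mul hc (h.hx l)]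
      linarith [h.ha1 l]
    · obtain ⟨j, hj⟩ := h.ha2
      refine ⟨j, ?_⟩
      rw [hx, P.ord_mul hc (h.hx j), hj]
      ring
    · rw [hFx]
      exact mul_ne_zero (pow_ne_zero _ hc) (h.hFx k)
    · rw [hFx, P.ord_mul (pow_ne_zero _ hc) (h.hFx k), P.ord_pow, h.hv]
      ring
  · rw [hxX]
    exact (bwa n K).1 D c X

/-- composition -/
theorem Compat.trans {F'' : Fin (n + 1) → MvPolynomial (Fin (n + 1)) ℂ} {Z : Fin (n + 1) → K}
    {c' : K} (h : Compat F F' dF x X c) (h' : Compat F' F'' dF X Z c') :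
    Compat F F'' dF x Z (c * c') := by
  refine ⟨mul_ne_zero h.hc h'.hc, fun P α v hd => ?_, fun D => ?_⟩
  · have h1 := h.dat P _ v (h'.dat P α v hd)
    rwa [show α + P.ord (c * c') = α + P.ord c' + P.ord c by
      rw [P.ord_mul h.hc h'.hc]; ring]
  · rw [h.bw, h'.bw]
    ring

/-- the shear -/
theorem compat_shear {q : Fin (n + 1) → ℂ} (hq : q (Fin.last n) = 0) (hxne : ∀ l, x l ≠ 0) :
    Compat F (fun k => shF q 1 (F k)) dF x (shx q x) 1 := by
  classical
  have hxx' : ∀ j, x j = shx q x j + algebraMap ℂ K (q j) * shx q x (Fin.last n) := by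
    intro j
    rw [shx_last hq]
    unfold shx
    ring
  have hev : ∀ k, aeval (shx q x) (shF q 1 (F k)) = aeval x (F k) := fun k => by
    have h1 := aeval_shF hq x 1 (F k)
    rwa [map_one, one_mul] at h1
  refine ⟨one_ne_zero, fun P α v h => ?_, fun D => ?_⟩
  · rw [P.ord_one, add_zero]
    have hge' : ∀ l, Ge P α (shx q x l) := fun l => Or.inr (h.ha1 l)
    have hge : ∀ l, α ≤ P.ord (x l) := by
      intro l
      have h1 : Ge P α (x l) := by
        rw [hxx']
        have h2 := (Ge.const (P := P) (q l)).mul (hge' (Fin.last n))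
        rw [zero_add] at h2
        exact (hge' l).add h2
      exact h1.resolve_left (hxne l)
    refine ⟨hxne, hge, ?_, fun k => ?_, fun k => ?_⟩
    · by_contra hcon
      push Not at hcon
      have h2 : ∀ l, Ge P (α + 1) (x l) := fun l => Or.inr (by
        have h3 := hge l
        have h4 := hcon l
        omega)
      obtain ⟨j, hj⟩ := h.ha2
      have h3 : Ge P (α + 1) (shx q x j) := by
        unfold shx
        have h4 := (Ge.const (P := P) (q j)).mul (h2 (Fin.last n))
        rw [zero_add] at h4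
        exact Ge.sub (h2 j) h4
      have h4 := h3.resolve_left (h.hx j)
      omega
    · rw [← hev]
      exact h.hFx k
    · rw [← hev]
      exact h.hv k
  · rw [one_pow, one_mul]
    obtain ⟨cm, hcm⟩ : ∃ cm : Matrix (Fin (n + 1)) (Fin (n + 1)) ℂ,
      cm = Matrix.of fun i j => (if i = j then 1 else 0) + (if j = Fin.last n then q i else 0) :=
      ⟨_, rfl⟩
    have h1 : x = fun i => ∑ j, algebraMap ℂ K (cm i j) * shx q x j := by
      funext i
      rw [hxx' i, hcm]
      simp only [Matrix.of_apply, map_add, add_mul, Finset.sum_add_distrib]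
      congr 1
      · rw [Finset.sum_eq_single i]
        · rw [if_pos rfl, map_one, one_mul]
        · intro b _ hb
          rw [if_neg (Ne.symm hb), map_zero, zero_mul]
        · intro h
          exact absurd (Finset.mem_univ _) h
      · rw [Finset.sum_eq_single (Fin.last n)]
        · rw [if_pos rfl]
        · intro b _ hb
          rw [if_neg hb, map_zero, zero_mul]
        · intro h
          exact absurd (Finset.mem_univ _) h
    have h2 : cm.det = 1 := by
      rw [Matrix.det_of_isUpperTriangular]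
      · refine Finset.prod_eq_one fun i _ => ?_
        rw [hcm, Matrix.of_apply, if_pos rfl]
        by_cases hi : i = Fin.last n
        · rw [if_pos hi, hi, hq, add_zero]
        · rw [if_neg hi, add_zero]
      · intro i j hij
        have hij' : j < i := hij
        rw [hcm, Matrix.of_apply, if_neg (ne_of_gt hij'), if_neg, add_zero]
        rintro rfl
        exact absurd (Fin.le_last i) (not_le_of_gt hij')
    have h3 := (bwa n K).2.2 cm D (shx q x)
    rw [← h1, h2, map_one, one_mul] at h3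
    exact h3

end change

end Pool.Agent.K3h47.NC
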